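import Pool.Agent.H55.CSDefs

set_option autoImplicit false

/-!
# Subsets of the Cantor group inside a model: the Hurewicz property, generated subgroups, Borel sets, sigma-compactness

All notions are relativized to a structure `(M, E)`: all quantifiers range over `M`, and `E` is the membership
relation of the model. `w` is the set of natural numbers of the model; for natural numbers, `E` is the order.

The Polish group is the Cantor group: the set of all subsets of `w` with the symmetric difference as group operation
and with the topology of pointwise convergence of characteristic functions. It is compact and metrizable.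
-/

namespace Pool.Agent.H55.HZ

open Pool.Agent.H55.SC Pool.Agent.H55.CS

universe u

variable {M : Type u} (E : M → M → Prop)

/-- The sets `A` and `B` have the same elements below `n`. -/
def Agree (n A B : M) : Prop := ∀ x, E x n → (E x A ↔ E x B)

/-- In the model, `D` is the symmetric difference of `A` and `B`. -/
def IsSymmDiff (A B D : M) : Prop := ∀ x, E x D ↔ (E x A ∧ ¬ E x B) ∨ (E x B ∧ ¬ E x A)

variable (w : M)

/-- In the model, `O` is an open subset of the Cantor group. -/
def IsOpenSet (O : M) : Prop := (∀ A, E A O → Sub E A w) ∧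
  ∀ A, E A O → ∃ n, E n w ∧ ∀ B, Sub E B w → Agree E n A B → E B O

/-- In the model, `C` is a closed (equivalently, compact) subset of the Cantor group. -/
def IsClosedSet (C : M) : Prop := (∀ A, E A C → Sub E A w) ∧
  ∀ A, Sub E A w → (∀ n, E n w → ∃ B, E B C ∧ Agree E n A B) → E A C

/-- In the model, `u` is a sequence: a function with domain `w`. -/
def IsSeq (u : M) : Prop := ∀ n, E n w → ∃! x, Rel E u n x

/-- In the model, `H` is a subgroup of the Cantor group. -/
def IsSubgroup (H : M) : Prop := (∀ A, E A H → Sub E A w) ∧ (∀ e, (∀ x, ¬ E x e) → E e H) ∧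
  ∀ A B D, E A H → E B H → IsSymmDiff E A B D → E D H

/-- In the model, `H` is the subgroup generated by `X`. -/
def IsGeneratedBy (X H : M) : Prop := IsSubgroup E w H ∧ Sub E X H ∧ ∀ K, IsSubgroup E w K → Sub E X K → Sub E H K

/-- In the model, `S` is a σ-algebra of subsets of the Cantor group. -/
def IsSigmaAlgebra (S : M) : Prop := (∀ B, E B S → ∀ A, E A B → Sub E A w) ∧
  (∀ B C, E B S → (∀ A, E A C ↔ Sub E A w ∧ ¬ E A B) → E C S) ∧
  ∀ u, IsSeq E w u → (∀ n B, E n w → Rel E u n B → E B S) →
    ∀ C, (∀ A, E A C ↔ ∃ n B, E n w ∧ Rel E u n B ∧ E A B) → E C S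

/-- In the model, `H` is a Borel subset of the Cantor group: it belongs to all σ-algebras which contain the open
sets. -/
def IsBorel (H : M) : Prop := ∀ S, IsSigmaAlgebra E w S → (∀ O, IsOpenSet E w O → E O S) → E H S

/-- In the model, `H` is a σ-compact subset of the Cantor group: the union of a sequence of compact sets. -/
def IsSigmaCompact (H : M) : Prop := ∃ u, IsSeq E w u ∧ (∀ n K, E n w → Rel E u n K → IsClosedSet E w K) ∧
  ∀ A, E A H ↔ ∃ n K, E n w ∧ Rel E u n K ∧ E A K

/-- In the model, `F` is finite: it is covered by the image of a natural number under a partial function. -/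
def IsFinite (F : M) : Prop := ∃ k f, E k w ∧ (∀ x y z, E x k → Rel E f x y → Rel E f x z → y = z) ∧
  ∀ y, E y F → ∃ x, E x k ∧ Rel E f x y

/-- In the model, `u` is a sequence of families of open sets, each of which covers `X`. -/
def IsCoverSeq (X u : M) : Prop := IsSeq E w u ∧ ∀ n V, E n w → Rel E u n V →
  (∀ O, E O V → IsOpenSet E w O) ∧ ∀ A, E A X → ∃ O, E O V ∧ E A O

/-- In the model, `X` is a subset of the Cantor group with the Hurewicz property: for every sequence of open covers
of `X` one can choose finite subfamilies such that every point of `X` is covered by all but finitely many of them. -/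
def IsHurewicz (X : M) : Prop := (∀ A, E A X → Sub E A w) ∧ ∀ u, IsCoverSeq E w X u →
  ∃ v, IsSeq E w v ∧ (∀ n V F, E n w → Rel E u n V → Rel E v n F → Sub E F V ∧ IsFinite E w F) ∧
    ∀ A, E A X → ∃ m, E m w ∧ ∀ n F, E n w → (E m n ∨ m = n) → Rel E v n F → ∃ O, E O F ∧ E A O

end Pool.Agent.H55.HZ
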