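import Pool.Agent.H55.CSDefs

set_option autoImplicit false

/-!
# Ultrafilters, Fubini limits and the Tukey order inside a model

All notions are relativized to a structure `(M, E)`: all quantifiers range over `M`, and `E` is the membership
relation of the model. `w` is the set of natural numbers of the model.
-/

namespace Pool.Agent.H55.TK

open Pool.Agent.H55.SC

universe u

variable {M : Type u} (E : M → M → Prop)

/-- In the model, `U` is an ultrafilter on the set `w` which contains no singleton. -/
structure IsUltra (w U : M) : Prop where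
  sub : ∀ A, E A U → ∀ x, E x A → E x w
  up : ∀ A B, E A U → (∀ x, E x A → E x B) → (∀ x, E x B → E x w) → E B U
  inter : ∀ A B C, E A U → E B U → (∀ x, E x C ↔ E x A ∧ E x B) → E C U
  compl : ∀ A B, (∀ x, E x A → E x w) → (∀ x, E x B ↔ E x w ∧ ¬ E x A) → (E A U ↔ ¬ E B U)
  nonprincipal : ∀ A n, (∀ x, E x A ↔ x = n) → ¬ E A U

variable {w : M}

/-- The function `f` is constant on the set `A`. -/
def ConstOn (f : El E w → El E w) (A : M) : Prop := ∃ c, ∀ x : El E w, E x.1 A → f x = c

/-- The function `f` is injective on the set `A`. -/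
def InjectiveOn (f : El E w → El E w) (A : M) : Prop := ∀ x y : El E w, E x.1 A → E y.1 A → f x = f y → x = y

/-- The function `f` is finite-to-one on the set `A` of natural numbers: for every `c` the set of all `x` in `A` with
value `c` is bounded by a natural number `b` (for natural numbers, `E` is the order). -/
def FiniteToOneOn (f : El E w → El E w) (A : M) : Prop :=
  ∀ c, ∃ b : El E w, ∀ x : El E w, E x.1 A → f x = c → E x.1 b.1

variable (w)

/-- In the model, `U` is a p-point: every function from `w` to `w` is constant or finite-to-one on a set in `U`. -/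
def IsPPoint (U : M) : Prop := IsUltra E w U ∧
  ∀ f : El E w → El E w, IntFun E f → ∃ A, E A U ∧ (ConstOn E f A ∨ FiniteToOneOn E f A)

/-- In the model, `U` is a q-point: every finite-to-one function from `w` to `w` is injective on a set in `U`. -/
def IsQPoint (U : M) : Prop := IsUltra E w U ∧
  ∀ f : El E w → El E w, IntFun E f → FiniteToOneOn E f w → ∃ A, E A U ∧ InjectiveOn E f A

/-- In the model, `U` is selective: every function from `w` to `w` is constant or injective on a set in `U`. -/
def IsSelective (U : M) : Prop := IsUltra E w U ∧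
  ∀ f : El E w → El E w, IntFun E f → ∃ A, E A U ∧ (ConstOn E f A ∨ InjectiveOn E f A)

variable {w}

/-- The sequence `V` (indexed by the natural numbers of the model) belongs to the model. -/
def IntSeq (V : El E w → M) : Prop := ∃ v, ∀ (n : El E w) (x : M), V n = x ↔ Rel E v n.1 x

/-- In the model, `U` is the Fubini limit of the sequence `V` along `W`, where `w × w` is identified with `w` by a
bijection `π` of the model: a set `A` belongs to `U` if and only if `W` contains the set `B` of all `n` such that the
section `C = {k : π (n, k) ∈ A}` belongs to `V n`. -/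
def IsFubiniLimit (W : M) (V : El E w → M) (U : M) : Prop := (∀ A, E A U → ∀ x, E x A → E x w) ∧
  ∃ π : El E w → El E w → El E w, IntFun₂ E π ∧ (∀ x, ∃! p : El E w × El E w, π p.1 p.2 = x) ∧
    ∀ A, (∀ x, E x A → E x w) → (E A U ↔
      ∃ B, E B W ∧ (∀ x, E x B → E x w) ∧ ∀ n : El E w, E n.1 B ↔
        ∃ C, E C (V n) ∧ (∀ x, E x C → E x w) ∧ ∀ k : El E w, E k.1 C ↔ E (π n k).1 A)

variable (w)

/-- In the model, `U` is a Fubini iterate of p-points of depth at most `k`. -/
def IsIterate : ℕ → M → Prop
  | 0, _ => False
  | k + 1, U => IsPPoint E w U ∨ IsIterate k U ∨ ∃ (W : M) (V : El E w → M),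
      IsPPoint E w W ∧ IntSeq E V ∧ (∀ n, IsIterate k (V n)) ∧ IsFubiniLimit E W V U

/-- In the model, `V` is Tukey reducible to `U`: there is a monotone map from `U` to `V` with cofinal range. -/
def TukeyLE (V U : M) : Prop := ∃ g : El E U → El E V, IntFun E g ∧
  (∀ A B : El E U, (∀ x, E x A.1 → E x B.1) → ∀ x, E x (g A).1 → E x (g B).1) ∧
  ∀ C : El E V, ∃ A, ∀ x, E x (g A).1 → E x C.1

end Pool.Agent.H55.TK
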