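import Pool.Agent.H55.Lav.Fin
import Pool.Agent.H55.Sig.TKDefs

set_option autoImplicit false
set_option linter.all false

/-!
# Forcing which adds no reals: subsets of `ω` and functions of the model
-/

namespace Pool.Agent.H55.Sig

open FirstOrder FirstOrder.Language Pool.Agent.H55.SC Pool.Agent.H55.ZFU Pool.Agent.H55.Lav Pool.Agent.H55.TK

/-- Every decreasing sequence has a lower bound. -/
def SClosed (Q : Type) [Preorder Q] : Prop := ∀ p : ℕ → Q, (∀ n, p (n + 1) ≤ p n) → ∃ q, ∀ n, q ≤ p n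

/-- The conditions deciding all the sets `S n`. -/
def DAll {Q : Type} [Preorder Q] (S : ℕ → Set Q) : Set Q := {q | ∀ n, q ∈ S n ∨ ∀ r ≤ q, r ∉ S n}

lemma dAll_dense {Q : Type} [Preorder Q] (h : SClosed Q) (S : ℕ → Set Q) (hS : ∀ n p q, p ∈ S n → q ≤ p → q ∈ S n)
    (p : Q) : ∃ q ∈ DAll S, q ≤ p := by
  have h1 : ∀ (n : ℕ) (p : Q), ∃ q ≤ p, q ∈ S n ∨ ∀ r ≤ q, r ∉ S n := by
    intro n p
    by_cases h : ∃ q ≤ p, q ∈ S n
    · obtain ⟨q, hq, h2⟩ := h
      exact ⟨q, hq, Or.inl h2⟩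
    · push Not at h
      exact ⟨p, le_rfl, Or.inr h⟩
  choose f hf1 hf2 using h1
  let s : ℕ → Q := fun n => Nat.rec p (fun n q => f n q) n
  have hs : ∀ n, s (n + 1) = f n (s n) := fun n => rfl
  obtain ⟨q, hq⟩ := h s (fun n => by rw [hs]; exact hf1 _ _)
  refine ⟨q, fun n => ?_, hq 0⟩
  have h3 := hf2 n (s n)
  rw [← hs] at h3
  rcases h3 with h3 | h3
  · exact Or.inl (hS n _ _ h3 (hq (n + 1)))
  · exact Or.inr (fun r hr => h3 r (hr.trans (hq (n + 1))))

variable {Q : Type} [Preorder Q] [OrderTop Q]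

/-- There are generic filters over almost all countable sets. -/
theorem exists_genF : ∀ᶠ N in club (Un Q), ∃ G : Set Q, GenF N G := by
  have h1 : ∀ᶠ N in club (Un Q), ∀ D : Set Q, InT N D → ∀ p : Q, InT N p → (∃ q ∈ D, q ≤ p) →
      ∃ q ∈ D, q ≤ p ∧ InT N q := by
    refine diagT (fun D => diagT (fun p => ?_))
    by_cases h : ∃ q ∈ D, q ≤ p
    · obtain ⟨q, h1, h2⟩ := h
      exact (club_inT q).mono (fun N hN _ => ⟨q, h1, h2, hN⟩)
    · exact Filter.Eventually.of_forall (fun N h' => (h h').elim)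
  filter_upwards [h1, club_countable (Ω := Un Q), club_inT (⊤ : Q), club_inT (Set.univ : Set Q)] with N h1 hc htop hun
  classical
  -- an enumeration of the dense sets in `N`
  have hcD : {D : Set Q | InT N D ∧ ∀ p, ∃ q ∈ D, q ≤ p}.Countable := by
    have : {D : Set Q | InT N D}.Countable := hc.preimage_of_injOn uT_inj.injOn
    exact this.mono (fun D hD => hD.1)
  have hne : {D : Set Q | InT N D ∧ ∀ p, ∃ q ∈ D, q ≤ p}.Nonempty := ⟨Set.univ, hun, fun p => ⟨p, trivial, le_rfl⟩⟩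
  obtain ⟨e, he⟩ := hcD.exists_eq_range hne
  have he' : ∀ n, InT N (e n) ∧ ∀ p, ∃ q ∈ e n, q ≤ p := fun n => by
    have : e n ∈ {D : Set Q | InT N D ∧ ∀ p, ∃ q ∈ D, q ≤ p} := by rw [he]; exact ⟨n, rfl⟩
    exact this
  have h2 : ∀ (n : ℕ) (p : {q : Q // InT N q}), ∃ q : {q : Q // InT N q}, q.1 ∈ e n ∧ q.1 ≤ p.1 := by
    intro n p
    obtain ⟨q, h3, h4, h5⟩ := h1 (e n) (he' n).1 p.1 p.2 ((he' n).2 p.1)
    exact ⟨⟨q, h5⟩, h3, h4⟩
  choose f hf1 hf2 using h2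
  let s : ℕ → {q : Q // InT N q} := fun n => Nat.rec ⟨⊤, htop⟩ (fun n q => f n q) n
  have hs : ∀ n, s (n + 1) = f n (s n) := fun n => rfl
  have hanti : ∀ m n, m ≤ n → (s n).1 ≤ (s m).1 := by
    intro m n hmn
    induction n, hmn using Nat.le_induction with
    | base => exact le_rfl
    | succ n _ ih => rw [hs]; exact (hf2 n (s n)).trans ih
  refine ⟨{q | InT N q ∧ ∃ n, (s n).1 ≤ q}, ⟨fun q hq => hq.1, ?_, ?_, ?_⟩⟩
  · rintro p ⟨_, n, hn⟩ q hpq hq
    exact ⟨hq, n, hn.trans hpq⟩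
  · rintro p ⟨_, n, hn⟩ q ⟨_, m, hm⟩
    exact ⟨(s (max n m)).1, ⟨(s _).2, _, le_rfl⟩, (hanti _ _ (le_max_left _ _)).trans hn,
      (hanti _ _ (le_max_right _ _)).trans hm⟩
  · intro D hD hd
    have : D ∈ {D : Set Q | InT N D ∧ ∀ p, ∃ q ∈ D, q ≤ p} := ⟨hD, hd⟩
    rw [he] at this
    obtain ⟨n, rfl⟩ := this
    exact ⟨(s (n + 1)).1, ⟨(s (n + 1)).2, n + 1, le_rfl⟩, by rw [hs]; exact hf1 n (s n)⟩

/-! ### Deciding statements -/

/-- Closure properties of `N` used for deciding sequences of statements. -/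
structure SOk (N : Set (Un Q)) : Prop where
  dall : ∀ S : ℕ → Set Q, InT N S → InT N (DAll S)
  ev : ∀ S : ℕ → Set Q, InT N S → ∀ q : Q, InT N q → InT N {n | q ∈ S n}

lemma sok_club : ∀ᶠ N in club (Un Q), SOk N := by
  have h1 : ∀ᶠ N in club (Un Q), ∀ S : ℕ → Set Q, InT N S → InT N (DAll S) := diagT (fun S => club_inT _)
  have h2 : ∀ᶠ N in club (Un Q), ∀ S : ℕ → Set Q, InT N S → ∀ q : Q, InT N q → InT N {n | q ∈ S n} :=
    diagT (fun S => diagT (fun q => club_inT _))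
  filter_upwards [h1, h2] with N h1 h2
  exact ⟨h1, h2⟩

/-- Closure properties of `N` used for a sequence of names. -/
structure EOk (N : Set (Un Q)) (e : ℕ → Nm Q) : Prop where
  nm : ∀ n, InN N (e n)
  fm : ∀ τ, InN N τ → InT N (fun n => {p : Q | fmem (e n) τ p})

lemma eok_club (e : ℕ → Nm Q) : ∀ᶠ N in club (Un Q), EOk N e := by
  have h1 : ∀ᶠ N in club (Un Q), ∀ n, InN N (e n) := club_all (fun n => club_inN _)
  have h2 : ∀ᶠ N in club (Un Q), ∀ τ, InN N τ → InT N (fun n => {p : Q | fmem (e n) τ p}) := diagN (fun τ => club_inT _)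
  filter_upwards [h1, h2] with N h1 h2
  exact ⟨h1, h2⟩

section dec
variable {N : Set (Un Q)} {G : Set Q}

/-- Sequences of open statements are decided by the ground model. -/
lemma decide_open (hσ : SClosed Q) (sok : SOk N) (gen : GenF N G) {S : ℕ → Set Q} (hS : InT N S)
    (hop : ∀ n p q, p ∈ S n → q ≤ p → q ∈ S n) :
    ∃ q ∈ G, ∀ n, (Ht G (S n) ↔ q ∈ S n) ∧ ∀ r ≤ q, (r ∈ S n ↔ q ∈ S n) := by
  obtain ⟨q, hq, h⟩ := gen.gen _ (sok.dall S hS) (dAll_dense hσ S hop)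
  refine ⟨q, hq, fun n => ⟨⟨?_, fun h' => ⟨q, hq, h'⟩⟩, fun r hr => ⟨?_, fun h' => hop n _ _ h' hr⟩⟩⟩
  · rintro ⟨p, hp, h'⟩
    rcases h n with h1 | h1
    · exact h1
    · obtain ⟨r, _, h2, h3⟩ := gen.dir p hp q hq
      exact (h1 r h3 (hop n _ _ h' h2)).elim
  · intro h'
    rcases h n with h1 | h1
    · exact h1
    · exact (h1 r hr h').elim

/-- The trace of a set of the model on a sequence of ground model names belongs to the ground model. -/
lemma ground (hσ : SClosed Q) (ok : NOk N) (sok : SOk N) (gen : GenF N G) {e : ℕ → Nm Q} (eok : EOk N e)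
    (a : MM N G) : ∃ A : Set ℕ, InT N A ∧ ∀ n, EE (vl G (eok.nm n)) a ↔ n ∈ A := by
  obtain ⟨a, τ, hτ, rfl⟩ := a
  obtain ⟨q, hq, h⟩ := decide_open hσ sok gen (eok.fm τ hτ) (fun n p q h hq => fmem_mono h hq)
  refine ⟨{n | q ∈ {p : Q | fmem (e n) τ p}}, sok.ev _ (eok.fm τ hτ) q (gen.sub q hq), fun n => ?_⟩
  refine (val_mem ok gen (eok.nm n) hτ).trans (Iff.trans ?_ (h n).1)
  exact Iff.rfl

end dec

/-! ### Subsets of `ω` -/

/-- The name of a ground model set of natural numbers. -/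
def ckS (Q : Type) [Preorder Q] [OrderTop Q] (A : Set ℕ) : Nm Q := .mk A (fun n => ck Q n.1) (fun _ => ⊤)

/-- Closure properties of `N` used for ground model sets of natural numbers. -/
structure COk (N : Set (Un Q)) : Prop where
  cs : ∀ A : Set ℕ, InT N A → InN N (ckS Q A)
  eok : EOk N (fun n : ℕ => ck Q n)

lemma cok_club : ∀ᶠ N in club (Un Q), COk N := by
  have h1 : ∀ᶠ N in club (Un Q), ∀ A : Set ℕ, InT N A → InN N (ckS Q A) := diagT (fun S => club_inN _)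
  filter_upwards [h1, eok_club (fun n : ℕ => ck Q n)] with N h1 h2
  exact ⟨h1, h2⟩

section sub
variable {N : Set (Un Q)} {G : Set Q} {zok : ZOk N}

/-- The value of a ground model set of natural numbers. -/
noncomputable def sv (G : Set Q) (cok : COk N) {A : Set ℕ} (h : InT N A) : MM N G := vl G (cok.cs A h)

lemma mem_sv (htop : (⊤ : Q) ∈ G) (cok : COk N) {A : Set ℕ} (h : InT N A) {z : MM N G} :
    EE z (sv G cok h) ↔ ∃ n ∈ A, z = nv G zok n := by
  constructor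
  · intro hz
    obtain ⟨i, h1, _, h3⟩ := mem_val.mp hz
    exact ⟨i.1, i.2, Subtype.ext h3.symm⟩
  · rintro ⟨n, hn, rfl⟩
    exact mem_val.mpr ⟨⟨n, hn⟩, zok.nat n, htop, rfl⟩

lemma nv_mem_sv (htop : (⊤ : Q) ∈ G) (cok : COk N) {A : Set ℕ} (h : InT N A) {n : ℕ} :
    EE (nv G zok n) (sv G cok h) ↔ n ∈ A := by
  rw [mem_sv (zok := zok) htop cok h]
  constructor
  · rintro ⟨m, hm, h'⟩
    rw [nv_inj htop h']; exact hm
  · intro hn; exact ⟨n, hn, rfl⟩

lemma sv_sub (htop : (⊤ : Q) ∈ G) (cok : COk N) {A : Set ℕ} (h : InT N A) :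
    ∀ x, EE x (sv G cok h) → EE x (ww G zok) := by
  intro x hx
  obtain ⟨n, _, rfl⟩ := (mem_sv (zok := zok) htop cok h).mp hx
  exact (mem_ww htop).mpr ⟨n, rfl⟩

lemma sv_inj (htop : (⊤ : Q) ∈ G) (cok : COk N) {A B : Set ℕ} {hA : InT N A} {hB : InT N B} (zok : ZOk N)
    (h : sv G cok hA = sv G cok hB) : A = B := by
  ext n
  rw [← nv_mem_sv (zok := zok) htop cok hA, h, nv_mem_sv (zok := zok) htop cok hB]

/-- Every subset of `ω` of the model belongs to the ground model. -/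
lemma sub_ground (hσ : SClosed Q) (ok : NOk N) (sok : SOk N) (cok : COk N) (gen : GenF N G) (a : MM N G)
    (ha : ∀ x, EE x a → EE x (ww G zok)) : ∃ A, ∃ h : InT N A, a = sv G cok h := by
  have htop := top_mem ok gen
  obtain ⟨A, hA, h⟩ := ground hσ ok sok gen cok.eok a
  refine ⟨A, hA, mm_ext (fun x => ?_)⟩
  rw [mem_sv (zok := zok) htop cok hA]
  constructor
  · intro hx
    obtain ⟨n, rfl⟩ := (mem_ww htop).mp (ha x hx)
    exact ⟨n, (h n).mp hx, rfl⟩
  · rintro ⟨n, hn, rfl⟩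
    exact (h n).mpr hn

end sub

end Pool.Agent.H55.Sig
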