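import Pool.Agent.H96.HurTower
import Pool.Agent.H55.Sig.Sig1

set_option autoImplicit false
set_option linter.all false

/-!
# The tower forcing: combinatorics of subsets of `ℕ`
-/

namespace Pool.Agent.H55.Hz

open Filter Set Pool.H96.Hur

/-- The conditions; stronger conditions are end-extensions in almost all rows. -/
def QH : Type := Cond

/-- The condition as an element of the original preorder. -/
def QH.c (q : QH) : Cond := q

instance : Preorder QH where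
  le q p := p.c ≤ q.c
  le_refl p := le_refl p.c
  le_trans r q p h1 h2 := le_trans (α := Cond) h2 h1

lemma qh_le {q p : QH} : q ≤ p ↔ p.c ≤ q.c := Iff.rfl

instance : OrderTop QH where
  top := (⟨fun _ => 0, fun _ _ => true⟩ : Cond)
  le_top q := by
    rw [qh_le, Pool.H96.Hur.le_def]
    exact Eventually.of_forall (fun i => ⟨Nat.zero_le _, fun j hj => (Nat.not_lt_zero j hj).elim⟩)

theorem qh_closed : Sig.SClosed QH := by
  intro p h
  have h1 : ∀ m n, m ≤ n → (p m).c ≤ (p n).c := by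
    intro m n hmn
    induction n, hmn using Nat.le_induction with
    | base => exact le_rfl
    | succ n _ ih => exact le_trans ih (qh_le.mp (h n))
  obtain ⟨q, hq⟩ := cond_sigma (fun n => (p n).c) h1
  exact ⟨q, hq⟩

/-- The finite set coded by `t`. -/
def DD (t : ℕ) : Set ℕ := {j | t.unpair.2.testBit j = true}

/-- The set `A` has the initial part coded by `t`. -/
def Mat (t : ℕ) (A : Set ℕ) : Prop := ∀ j < t.unpair.1, (j ∈ A ↔ j ∈ DD t)

/-- The subgroup. -/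
def Hset : Set (Set ℕ) := {A | ∃ n, ∀ i, n ≤ i → ∃ m, ∀ j, m ≤ j → Nat.pair i j ∉ A}

/-- The points with almost all rows contained in the part of the condition `q` with the value `b`. -/
def AS (b : Bool) (q : QH) : Set (Set ℕ) := {A | ∃ n, ∀ i, n ≤ i → ∀ j, Nat.pair i j ∈ A → j < q.c.M i ∧ q.c.S i j = b}

/-- The set of natural numbers corresponding to a point of the group. -/
def su (x : G) : Set ℕ := {t | x t.unpair.1 t.unpair.2 ≠ 1}

/-- The point corresponding to a set. -/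
noncomputable def pt (A : Set ℕ) : G := by classical exact fun i j => if Nat.pair i j ∈ A then -1 else 1

lemma pt_ne {A : Set ℕ} {i j : ℕ} : pt A i j ≠ 1 ↔ Nat.pair i j ∈ A := by
  classical
  unfold pt
  by_cases h : Nat.pair i j ∈ A
  · simp [h]
  · simp [h]

lemma su_pt (A : Set ℕ) : su (pt A) = A := by
  ext t
  show pt A t.unpair.1 t.unpair.2 ≠ 1 ↔ _
  rw [pt_ne, Nat.pair_unpair]

lemma as_iff {b : Bool} {q : QH} {A : Set ℕ} : A ∈ AS b q ↔ pt A ∈ Aset b q.c := by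
  constructor
  · rintro ⟨n, h⟩
    filter_upwards [eventually_ge_atTop n] with i hi j hj
    exact h i hi j (pt_ne.mp hj)
  · intro h
    obtain ⟨n, hn⟩ := eventually_atTop.mp h
    exact ⟨n, fun i hi j hj => hn i hi j (pt_ne.mpr hj)⟩

lemma hset_iff {A : Set ℕ} : A ∈ Hset ↔ pt A ∈ (Hgrp : Set G) := by
  show _ ↔ ∀ᶠ i in atTop, ∀ᶠ j in atTop, pt A i j = 1
  constructor
  · rintro ⟨n, h⟩
    filter_upwards [eventually_ge_atTop n] with i hi
    obtain ⟨m, hm⟩ := h i hi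
    filter_upwards [eventually_ge_atTop m] with j hj
    by_contra hne
    exact hm j hj (pt_ne.mp hne)
  · intro h
    obtain ⟨n, hn⟩ := eventually_atTop.mp h
    refine ⟨n, fun i hi => ?_⟩
    obtain ⟨m, hm⟩ := eventually_atTop.mp (hn i hi)
    exact ⟨m, fun j hj hA => pt_ne.mpr hA (hm j hj)⟩

/-- The restriction to the first `k` coordinates. -/
def res (k : ℕ) (x : G) : Fin k → ℤˣ := fun j => x j.1.unpair.1 j.1.unpair.2

lemma res_cont (k : ℕ) : Continuous (res k) := by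
  refine continuous_pi (fun j => ?_)
  unfold res
  fun_prop

/-- The strings matching `t`. -/
def strs (t : ℕ) : Set (Fin t.unpair.1 → ℤˣ) := {y | ∀ j : Fin t.unpair.1, (y j ≠ 1 ↔ j.1 ∈ DD t)}

lemma mat_iff {t : ℕ} {x : G} : Mat t (su x) ↔ res t.unpair.1 x ∈ strs t := by
  constructor
  · intro h j
    exact h j.1 j.2
  · intro h j hj
    exact h ⟨j, hj⟩

lemma mat_open (t : ℕ) : IsOpen {x : G | Mat t (su x)} := by
  have : {x : G | Mat t (su x)} = res t.unpair.1 ⁻¹' (strs t) := by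
    ext x; exact mat_iff
  rw [this]
  exact (isOpen_discrete _).preimage (res_cont _)

/-- The Key Lemma in terms of codes. -/
theorem key (b : Bool) (P : ℕ → Set ℕ) (p : QH) :
    (∃ A ∈ AS b p, ∃ n, ¬ ∃ t ∈ P n, Mat t A) ∨ ∃ q ≤ p, ∃ L : ℕ → ℕ, ∀ r ≤ q, ∀ A ∈ AS b r,
      ∃ m, ∀ n, m ≤ n → ∃ t ∈ P n, t < L n ∧ Mat t A := by
  by_cases h : ∃ A ∈ AS b p, ∃ n, ¬ ∃ t ∈ P n, Mat t A
  · exact Or.inl h
  right
  push Not at h
  let U : ℕ → Set G := fun n => ⋃ t ∈ P n, {x : G | Mat t (su x)}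
  have hU : ∀ n, IsOpen (U n) := fun n => isOpen_biUnion (fun t _ => mat_open t)
  have hsub : Aset b p.c ⊆ ⋂ n, U n := by
    intro x hx
    refine Set.mem_iInter.mpr (fun n => ?_)
    have h1 : su x ∈ AS b p := by
      rw [as_iff]
      have hx' : ∀ᶠ i in atTop, ∀ j, x i j ≠ 1 → j < p.c.M i ∧ p.c.S i j = b := hx
      show ∀ᶠ i in atTop, ∀ j, pt (su x) i j ≠ 1 → j < p.c.M i ∧ p.c.S i j = b
      filter_upwards [hx'] with i hi j hj
      refine hi j ?_
      have := pt_ne.mp hj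
      simpa [su] using this
    obtain ⟨t, ht, hm⟩ := h _ h1 n
    exact Set.mem_biUnion ht hm
  obtain ⟨q, hq, K, hK1, hK2, hK3, hK4⟩ := key_lemma b p.c U hU hsub
  have hL : ∀ n, ∃ l, K n ⊆ ⋃ t ∈ {t | t ∈ P n ∧ t < l}, {x : G | Mat t (su x)} := by
    intro n
    have hdir : Directed (· ⊆ ·) (fun l : ℕ => ⋃ t ∈ {t | t ∈ P n ∧ t < l}, {x : G | Mat t (su x)}) := by
      refine Monotone.directed_le ?_
      intro l l' hl x hx
      obtain ⟨t, ht, hx⟩ := Set.mem_iUnion₂.mp hx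
      exact Set.mem_biUnion (show t ∈ {t | t ∈ P n ∧ t < l'} from ⟨ht.1, ht.2.trans_le hl⟩) hx
    refine (hK1 n).elim_directed_cover _ (fun l => isOpen_biUnion (fun t _ => mat_open t)) ?_ hdir
    intro x hx
    have h1 : x ∈ U n := Set.mem_iInter.mp (hK3 (Set.mem_iUnion.mpr ⟨n, hx⟩)) n
    obtain ⟨t, ht, hx⟩ := Set.mem_iUnion₂.mp h1
    exact Set.mem_iUnion.mpr ⟨t + 1, Set.mem_biUnion (show t ∈ {t' | t' ∈ P n ∧ t' < t + 1} from ⟨ht, Nat.lt_succ_self t⟩) hx⟩
  choose L hL using hL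
  refine ⟨q, hq, L, fun r hr A hA => ?_⟩
  have h1 := hK4 r.c hr (as_iff.mp hA)
  obtain ⟨m, hm⟩ := Set.mem_iUnion.mp h1
  refine ⟨m, fun n hn => ?_⟩
  obtain ⟨t, ht, hx⟩ := Set.mem_iUnion₂.mp (hL n (hK2 hn hm))
  refine ⟨t, ht.1, ht.2, ?_⟩
  have h2 : Mat t (su (pt A)) := hx
  rwa [su_pt] at h2

/-- Lengths can be increased. -/
lemma len_dense (f : ℕ → ℕ) (p : QH) : ∃ q ∈ {q : QH | ∀ i, f i ≤ q.c.M i}, q ≤ p := by
  refine ⟨(⟨fun i => max (p.c.M i) (f i), p.c.S⟩ : Cond), fun i => le_max_right _ _, ?_⟩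
  rw [qh_le, Pool.H96.Hur.le_def]
  exact Eventually.of_forall (fun i => ⟨le_max_left _ _, fun j _ => rfl⟩)

/-- The part of `A` in the places of value `false`. -/
def zp (A : Set ℕ) (q : QH) : Set ℕ := {t | t ∈ A ∧ t.unpair.2 < q.c.M t.unpair.1 ∧ q.c.S t.unpair.1 t.unpair.2 = false}

lemma zp_mem (A : Set ℕ) (q : QH) : zp A q ∈ AS false q := by
  refine ⟨0, fun i _ j hj => ?_⟩
  obtain ⟨_, h1, h2⟩ := hj
  rw [Nat.unpair_pair] at h1 h2
  exact ⟨h1, h2⟩

lemma exists_bound {A : Set ℕ} (hA : A ∈ Hset) : ∃ f : ℕ → ℕ, ∀ q : QH, (∀ i, f i ≤ q.c.M i) → A \ zp A q ∈ AS true q := by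
  obtain ⟨n, hn⟩ := hA
  have h1 : ∀ i, ∃ m, n ≤ i → ∀ j, m ≤ j → Nat.pair i j ∉ A := by
    intro i
    by_cases h : n ≤ i
    · obtain ⟨m, hm⟩ := hn i h
      exact ⟨m, fun _ => hm⟩
    · exact ⟨0, fun h' => (h h').elim⟩
  choose f hf using h1
  refine ⟨f, fun q hq => ⟨n, fun i hi j hj => ?_⟩⟩
  have h2 : j < q.c.M i := by
    by_contra hcon
    exact hf i hi j ((hq i).trans (not_lt.mp hcon)) hj.1
  refine ⟨h2, ?_⟩
  cases hS : q.c.S i j with
  | true => rfl
  | false =>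
    refine (hj.2 ⟨hj.1, ?_, ?_⟩).elim
    · simpa using h2
    · simpa using hS

lemma as_sub_hset {b : Bool} {q : QH} {A : Set ℕ} (hA : A ∈ AS b q) : A ∈ Hset := by
  obtain ⟨n, hn⟩ := hA
  exact ⟨n, fun i hi => ⟨q.c.M i, fun j hj h => absurd (hn i hi j h).1 (not_lt.mpr hj)⟩⟩

lemma as_mono {b : Bool} {q r : QH} (h : r ≤ q) {A : Set ℕ} (hA : A ∈ AS b q) : A ∈ AS b r := by
  rw [as_iff] at hA ⊢
  exact Aset_mono b (qh_le.mp h) hA

/-- The group is not a countable union of closed sets. -/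
theorem not_sigma (T : ℕ → Set ℕ) : ∃ A : Set ℕ, ¬ (A ∈ Hset ↔ ∃ n, ∀ k, ∃ t ∈ T n, t.unpair.1 = k ∧ Mat t A) := by
  by_contra hcon
  push Not at hcon
  refine Hgrp_not_sigmaCompact ⟨fun n => {x : G | ∀ k, ∃ t ∈ T n, t.unpair.1 = k ∧ Mat t (su x)}, fun n => ?_, ?_⟩
  · refine IsClosed.isCompact ?_
    have : {x : G | ∀ k, ∃ t ∈ T n, t.unpair.1 = k ∧ Mat t (su x)} =
        ⋂ k, res k ⁻¹' {y | ∃ t ∈ T n, t.unpair.1 = k ∧ ∀ j : Fin k, (y j ≠ 1 ↔ j.1 ∈ DD t)} := by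
      ext x
      simp only [Set.mem_iInter, Set.mem_preimage, Set.mem_ofPred_eq]
      refine forall_congr' (fun k => exists_congr (fun t => and_congr_right (fun _ => and_congr_right (fun hk => ?_))))
      subst hk
      exact ⟨fun h j => h j.1 j.2, fun h j hj => h ⟨j, hj⟩⟩
    show IsClosed {x : G | ∀ k, ∃ t ∈ T n, t.unpair.1 = k ∧ Mat t (su x)}
    rw [this]
    exact isClosed_iInter (fun k => (isClosed_discrete _).preimage (res_cont k))
  · ext x
    rw [Set.mem_iUnion]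
    have h1 := hcon (su x)
    have h2 : su x ∈ Hset ↔ x ∈ (Hgrp : Set G) := by
      show _ ↔ ∀ᶠ i in atTop, ∀ᶠ j in atTop, x i j = 1
      rw [hset_iff]
      show (∀ᶠ i in atTop, ∀ᶠ j in atTop, pt (su x) i j = 1) ↔ _
      refine Filter.eventually_congr (Eventually.of_forall (fun i => Filter.eventually_congr (Eventually.of_forall (fun j => ?_))))
      rw [← not_iff_not]
      refine pt_ne.trans ?_
      show x (Nat.pair i j).unpair.1 (Nat.pair i j).unpair.2 ≠ 1 ↔ _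
      rw [Nat.unpair_pair]
    rw [← h2, h1]
    exact Iff.rfl

end Pool.Agent.H55.Hz
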