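import Pool.Agent.H55.Sig.Sig2
import Pool.Agent.H55.Sig.HZDefs
import Pool.Agent.H55.Sig.Hz1

set_option autoImplicit false
set_option linter.all false

/-!
# Models with standard natural numbers: an interface
-/

namespace Pool.Agent.H55.Hz

open Pool.Agent.H55.SC Pool.Agent.H55.ZFU

universe u

section choice
variable {M : Type u} {E : M → M → Prop}

theorem choice_of (h : CS.ZFC E) : @Choice M (zModel h.zf) := by
  letI := zModel h.zf
  haveI := zPure h.zf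
  refine ⟨fun a => ?_⟩
  let B : M := img (sep a (fun x : M => ∃ y : M, y ∈ x)) (fun x => prod (sing x) x)
  have hB : ∀ z, z ∈ B ↔ ∃ x, (x ∈ a ∧ ∃ y, y ∈ x) ∧ z = prod (sing x) x := by
    intro z
    show z ∈ img _ _ ↔ _
    rw [mem_img]
    constructor
    · rintro ⟨x, hx, rfl⟩; exact ⟨x, mem_sep.1 hx, rfl⟩
    · rintro ⟨x, hx, rfl⟩; exact ⟨x, mem_sep.2 hx, rfl⟩
  obtain ⟨c, hc⟩ := h.choice B (by
    intro z hz
    obtain ⟨x, ⟨hx, y, hy⟩, rfl⟩ := (hB z).1 hz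
    exact ⟨opair x y, opair_mem_prod.2 ⟨by simp, hy⟩⟩) (by
    intro z z' p hz hz' hp hp'
    obtain ⟨x, ⟨hx, y, hy⟩, rfl⟩ := (hB z).1 hz
    obtain ⟨x', ⟨hx', y', hy'⟩, rfl⟩ := (hB z').1 hz'
    obtain ⟨u, hu, v, hv, rfl⟩ := mem_prod.1 (show p ∈ prod (sing x) x from hp)
    have h2 : opair u v ∈ prod (sing x') x' := hp'
    rw [opair_mem_prod] at h2
    have h3 : x = x' := by
      have e1 := mem_sing.1 hu
      have e2 := mem_sing.1 h2.1
      rw [← e1, ← e2]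
    rw [h3])
  refine ⟨sep (bigU B) (fun p => p ∈ c), ?_⟩
  intro x hx hne
  have hxB : prod (sing x) x ∈ B := (hB _).2 ⟨x, ⟨hx, hne⟩, rfl⟩
  obtain ⟨p, ⟨hp, hpc⟩, huniq⟩ := hc _ hxB
  obtain ⟨u, hu, y, hy, rfl⟩ := mem_prod.1 (show p ∈ prod (sing x) x from hp)
  rw [mem_sing] at hu
  subst hu
  have hex : ∃! y, opair u y ∈ sep (bigU B) (fun p => p ∈ c) := by
    refine ⟨y, mem_sep.2 ⟨mem_bigU.2 ⟨_, hxB, hp⟩, hpc⟩, ?_⟩
    intro z hz
    obtain ⟨hz1, hz2⟩ := mem_sep.1 hz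
    obtain ⟨w, hw, hzw⟩ := mem_bigU.1 hz1
    obtain ⟨x', ⟨hx', _⟩, rfl⟩ := (hB w).1 hw
    rw [opair_mem_prod, mem_sing] at hzw
    obtain ⟨rfl, hzu⟩ := hzw
    have := huniq (opair u z) ⟨opair_mem_prod.2 ⟨by simp, hzu⟩, hz2⟩
    exact (opair_inj.1 this).2
  have := app_eq hex (mem_sep.2 ⟨mem_bigU.2 ⟨_, hxB, hp⟩, hpc⟩)
  rw [this]
  exact hy

end choice

/-- The interface: a model with standard natural numbers `nv n`; the sets of natural numbers of the model are given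
by the sets in `IS`; `pr` is the pairing function. -/
structure Gd (M : Type u) [Model M] where
  nv : ℕ → M
  mem_om : ∀ x : M, x ∈ (omega : M) ↔ ∃ n, x = nv n
  lt : ∀ m n, nv m ∈ nv n ↔ m < n
  IS : Set ℕ → Prop
  sv : Set ℕ → M
  mem_sv : ∀ A, IS A → ∀ n, nv n ∈ sv A ↔ n ∈ A
  sv_sub : ∀ A, IS A → sv A ⊆ (omega : M)
  sub : ∀ a : M, a ⊆ (omega : M) → ∃ A, IS A ∧ a = sv A
  pr : M
  mem_pr : ∀ i j z, opair (opair (nv i) (nv j)) z ∈ pr ↔ z = nv (Nat.pair i j)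

/-- The pairs `(t, j)` such that the string `t` has the value `1` in the place `j`. -/
def Pos : Set ℕ := {x | x.unpair.2 < x.unpair.1.unpair.1 ∧ x.unpair.2 ∈ DD x.unpair.1}
/-- The pairs `(t, j)` such that the string `t` has the value `0` in the place `j`. -/
def Neg : Set ℕ := {x | x.unpair.2 < x.unpair.1.unpair.1 ∧ x.unpair.2 ∉ DD x.unpair.1}

lemma exists_string (A : Set ℕ) (k : ℕ) : ∃ t : ℕ, t.unpair.1 = k ∧ Mat t A := by
  classical
  refine ⟨Nat.pair k (Nat.ofBits (fun i : Fin k => decide (i.1 ∈ A))), by simp, fun j hj => ?_⟩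
  have h1 : (Nat.pair k (Nat.ofBits (fun i : Fin k => decide (i.1 ∈ A)))).unpair.1 = k := by simp
  rw [h1] at hj
  show _ ↔ Nat.testBit _ j = true
  rw [Nat.unpair_pair]
  show _ ↔ Nat.testBit (Nat.ofBits (fun i : Fin k => decide (i.1 ∈ A))) j = true
  rw [Nat.testBit_ofBits_lt _ _ hj]
  simp

namespace Gd
variable {M : Type u} [Model M] [Pure M] (D : Gd M)

lemma nv_mem (n : ℕ) : D.nv n ∈ (omega : M) := (D.mem_om _).mpr ⟨n, rfl⟩

lemma nv_inj {m n : ℕ} (h : D.nv m = D.nv n) : m = n := by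
  rcases lt_trichotomy m n with h1 | h1 | h1
  · have h2 := (D.lt m n).mpr h1
    rw [h] at h2
    exact (not_mem_self _ h2).elim
  · exact h1
  · have h2 := (D.lt n m).mpr h1
    rw [h] at h2
    exact (not_mem_self _ h2).elim

lemma mem_nv {n : ℕ} {x : M} : x ∈ D.nv n ↔ ∃ m, m < n ∧ x = D.nv m := by
  constructor
  · intro h
    obtain ⟨m, rfl⟩ := (D.mem_om x).mp (omega_trans _ (D.nv_mem n) x h)
    exact ⟨m, (D.lt m n).mp h, rfl⟩
  · rintro ⟨m, h, rfl⟩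
    exact (D.lt m n).mpr h

lemma nv_sub {m n : ℕ} : D.nv m ⊆ D.nv n ↔ m ≤ n := by
  constructor
  · intro h
    by_contra hcon
    push Not at hcon
    exact absurd ((D.lt n n).mp (h _ ((D.lt n m).mpr hcon))) (lt_irrefl _)
  · intro h x hx
    obtain ⟨k, hk, rfl⟩ := D.mem_nv.mp hx
    exact (D.lt k n).mpr (hk.trans_le h)

lemma sv_ext {a : M} (ha : a ⊆ (omega : M)) {A : Set ℕ} (hA : D.IS A) (h : ∀ n, D.nv n ∈ a ↔ n ∈ A) : a = D.sv A := by
  refine ext (fun x => ?_)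
  constructor
  · intro hx
    obtain ⟨n, rfl⟩ := (D.mem_om x).mp (ha x hx)
    exact (D.mem_sv A hA n).mpr ((h n).mp hx)
  · intro hx
    obtain ⟨n, rfl⟩ := (D.mem_om x).mp (D.sv_sub A hA x hx)
    exact (h n).mpr ((D.mem_sv A hA n).mp hx)

lemma sv_inj {A B : Set ℕ} (hA : D.IS A) (hB : D.IS B) (h : D.sv A = D.sv B) : A = B := by
  ext n
  rw [← D.mem_sv A hA, h, D.mem_sv B hB]

/-- The trace of a subset of `ω`. -/
lemma sub' {a : M} (ha : a ⊆ (omega : M)) : ∃ A, D.IS A ∧ a = D.sv A ∧ ∀ n, D.nv n ∈ a ↔ n ∈ A := by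
  obtain ⟨A, hA, rfl⟩ := D.sub a ha
  exact ⟨A, hA, rfl, fun n => D.mem_sv A hA n⟩

/-- The trace of a definable relation belongs to the ground model. -/
lemma trace (R : M → M → Prop) [hR : Dfn2 R] : ∃ A, D.IS A ∧ ∀ n m, R (D.nv n) (D.nv m) ↔ Nat.pair n m ∈ A := by
  have iR : ∀ {ι : Type} (t s : (ι → M) → M) [DFun t] [DFun s], Dfn (fun v => R (t v) (s v)) :=
    fun t s _ _ => Dfn.comp2 hR t s
  have h0 : Dfn1 (fun x : M => ∃ y, y ∈ (omega : M) ∧ ∃ z, z ∈ (omega : M) ∧ opair (opair y z) x ∈ D.pr ∧ R y z) := by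
    have := iR (fun v : Option (Option (Fin 1)) → M => v (some none)) (fun v => v none)
    infer_instance
  obtain ⟨A, hA, _, h⟩ := D.sub' (a := sep (omega : M) (fun x : M => ∃ y, y ∈ (omega : M) ∧ ∃ z, z ∈ (omega : M) ∧
    opair (opair y z) x ∈ D.pr ∧ R y z)) (fun x hx => (mem_sep.1 hx).1)
  refine ⟨A, hA, fun n m => ?_⟩
  rw [← h, mem_sep]
  constructor
  · intro h1
    exact ⟨D.nv_mem _, D.nv n, D.nv_mem n, D.nv m, D.nv_mem m, (D.mem_pr n m _).mpr rfl, h1⟩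
  · rintro ⟨_, y, hy, z, hz, h1, h2⟩
    obtain ⟨n', rfl⟩ := (D.mem_om y).mp hy
    obtain ⟨m', rfl⟩ := (D.mem_om z).mp hz
    have h3 := D.nv_inj ((D.mem_pr n' m' _).mp h1)
    have h4 := congrArg Nat.unpair h3
    rw [Nat.unpair_pair, Nat.unpair_pair] at h4
    obtain ⟨rfl, rfl⟩ := Prod.mk.inj h4
    exact h2

/-- The set `B` has the initial part coded by `t`. -/
def Mt (t B : M) : Prop := ∀ j, j ∈ (omega : M) → ∀ x, opair (opair t j) x ∈ D.pr → (x ∈ D.sv Pos → j ∈ B) ∧ (x ∈ D.sv Neg → j ∉ B)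

instance mt_dfn {ι : Type} (t s : (ι → M) → M) [DFun t] [DFun s] : Dfn (fun v => D.Mt (t v) (s v)) := by
  refine Dfn.comp2 (P := fun t B : M => D.Mt t B) ?_ t s
  unfold Mt
  infer_instance

lemma mt_iff (hP : D.IS Pos) (hN : D.IS Neg) {A : Set ℕ} (hA : D.IS A) (t : ℕ) : D.Mt (D.nv t) (D.sv A) ↔ Mat t A := by
  have key : ∀ j, Nat.pair t j ∈ Pos ↔ j < t.unpair.1 ∧ j ∈ DD t := by
    intro j
    show (Nat.pair t j).unpair.2 < (Nat.pair t j).unpair.1.unpair.1 ∧ _ ↔ _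
    rw [Nat.unpair_pair]
  have key' : ∀ j, Nat.pair t j ∈ Neg ↔ j < t.unpair.1 ∧ j ∉ DD t := by
    intro j
    show (Nat.pair t j).unpair.2 < (Nat.pair t j).unpair.1.unpair.1 ∧ _ ↔ _
    rw [Nat.unpair_pair]
  constructor
  · intro h j hj
    obtain ⟨h1, h2⟩ := h (D.nv j) (D.nv_mem j) (D.nv (Nat.pair t j)) ((D.mem_pr t j _).mpr rfl)
    rw [D.mem_sv _ hP, D.mem_sv _ hA, key] at h1
    rw [D.mem_sv _ hN, D.mem_sv _ hA, key'] at h2
    constructor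
    · intro h3
      by_contra h4
      exact h2 ⟨hj, h4⟩ h3
    · intro h3
      exact h1 ⟨hj, h3⟩
  · intro h z hz x hx
    obtain ⟨j, rfl⟩ := (D.mem_om z).mp hz
    obtain rfl := (D.mem_pr t j x).mp hx
    rw [D.mem_sv _ hP, D.mem_sv _ hA, key, D.mem_sv _ hN, key']
    exact ⟨fun h1 => (h j h1.1).mpr h1.2, fun h1 h2 => h1.2 ((h j h1.1).mp h2)⟩

end Gd

end Pool.Agent.H55.Hz
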