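import Pool.Agent.H55.Sig.Hz5

set_option autoImplicit false
set_option linter.all false

/-!
# The interface for generic extensions without new sets of natural numbers
-/

namespace Pool.Agent.H55.Hz

open Pool.Agent.H55.SC Pool.Agent.H55.ZFU Pool.Agent.H55.HZ Pool.Agent.H55.Lav Pool.Agent.H55.Sig

variable {Q : Type} [Preorder Q] [OrderTop Q]

/-- Closure properties of `N` used for the interface. -/
structure POk (N : Set (Un Q)) : Prop where
  pr : FnOk N (fun t : ℕ => opN (opk Q t) (ck Q t))

lemma pok_club : ∀ᶠ N in club (Un Q), POk N := by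
  filter_upwards [fnOk_club (fun t : ℕ => opN (opk Q t) (ck Q t))] with N h1
  exact ⟨h1⟩

section
variable {N : Set (Un Q)} {G : Set Q} (ok : NOk N) (fok : FOk N) (zok : ZOk N) (sok : SOk N) (cok : COk N)
  (fu : FuOk N) (rok : ROk N) (pok : POk N) (gen : GenF N G)

open Classical in
/-- The value of a set of natural numbers. -/
noncomputable def svT (G : Set Q) (zok : ZOk N) (cok : COk N) (A : Set ℕ) : MM N G :=
  if h : InT N A then sv G cok h else ww G zok

lemma svT_eq {A : Set ℕ} (h : InT N A) : svT G zok cok A = sv G cok h := dif_pos h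

/-- The interface of the model. -/
noncomputable def gd (hσ : SClosed Q) : @Gd (MM N G) (mdl ok fok zok gen) :=
  letI := mdl ok fok zok gen
  haveI : ZFU.Pure (MM N G) := zPure (zf ok fok zok gen)
  have htop := top_mem ok gen
  have hom : ww G zok = (omega : MM N G) := omega_iff.mp (isOmega_ww htop)
  { nv := fun n => nv G zok n
    mem_om := fun x => by rw [← hom]; exact mem_ww htop
    lt := fun m n => nv_lt htop
    IS := fun A => InT N A
    sv := svT G zok cok
    mem_sv := fun A hA n => by
      rw [svT_eq zok cok hA]
      exact nv_mem_sv htop cok hA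
    sv_sub := fun A hA => by
      rw [svT_eq zok cok hA, ← hom]
      exact sv_sub htop cok hA
    sub := fun a ha => by
      obtain ⟨A, hA, rfl⟩ := sub_ground (zok := zok) hσ ok sok cok gen a (fun x hx => by
        have h1 := ha x hx
        rw [← hom] at h1
        exact h1)
      exact ⟨A, hA, (svT_eq zok cok hA).symm⟩
    pr := vl G pok.pr.rg
    mem_pr := fun i j z => by
      have hop : (vl G (inN_op zok (zok.nat i) (zok.nat j)) : MM N G) = vl G (fu.eok.nm (Nat.pair i j)) := by
        apply Subtype.ext
        show val N G _ = val N G _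
        rw [opk, Nat.unpair_pair]
      have hp : opair (nv G zok i : MM N G) (nv G zok j) = vl G (inN_op zok (zok.nat i) (zok.nat j)) :=
        (pair_iff.mp (op_pair ok zok gen (zok.nat i) (zok.nat j))).symm
      rw [← rel_iff]
      have h1 := rel_rg ok fok zok gen (fun i _ => fu.eok.nm i) (fun i _ => zok.nat i) pok.pr
        (x := opair (nv G zok i : MM N G) (nv G zok j)) (y := z)
      refine h1.trans ?_
      constructor
      · rintro ⟨k, _, h2, h3⟩
        rw [hp] at h2
        have hk : IsPair (EE (N := N) (G := G)) (vl G (inN_op zok (zok.nat i) (zok.nat j))) (nv G zok k.unpair.1)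
            (nv G zok k.unpair.2) := by
          rw [h2]; exact op_pair ok zok gen (zok.nat k.unpair.1) (zok.nat k.unpair.2)
        obtain ⟨e3, e4⟩ := pair_uniq ok fok zok gen (op_pair ok zok gen (zok.nat i) (zok.nat j)) hk
        have e5 : i = k.unpair.1 := nv_inj (zok := zok) htop e3
        have e6 : j = k.unpair.2 := nv_inj (zok := zok) htop e4
        rw [h3, e5, e6, Nat.pair_unpair]
        rfl
      · rintro rfl
        exact ⟨Nat.pair i j, rok.nat _, by rw [hp, hop], rfl⟩ }

end

end Pool.Agent.H55.Hz
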