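import Pool.Agent.H55.Sig.Hz2

set_option autoImplicit false
set_option linter.all false

/-!
# The subgroup in the model
-/

namespace Pool.Agent.H55.Hz

open Pool.Agent.H55.SC Pool.Agent.H55.ZFU Pool.Agent.H55.HZ

universe u

/-- The symmetric difference of two elements of the subgroup belongs to it. -/
lemma hset_symm {A B : Set ℕ} (hA : A ∈ Hset) (hB : B ∈ Hset) : {n | (n ∈ A ∧ n ∉ B) ∨ (n ∈ B ∧ n ∉ A)} ∈ Hset := by
  obtain ⟨n, hn⟩ := hA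
  obtain ⟨m, hm⟩ := hB
  refine ⟨max n m, fun i hi => ?_⟩
  obtain ⟨a, ha⟩ := hn i (le_trans (le_max_left _ _) hi)
  obtain ⟨b, hb⟩ := hm i (le_trans (le_max_right _ _) hi)
  refine ⟨max a b, fun j hj h => ?_⟩
  rcases h with h | h
  · exact ha j (le_trans (le_max_left _ _) hj) h.1
  · exact hb j (le_trans (le_max_right _ _) hj) h.1

lemma hset_empty : (∅ : Set ℕ) ∈ Hset := ⟨0, fun i _ => ⟨0, fun j _ h => h⟩⟩

namespace Gd
variable {M : Type u} [Model M] [Pure M] (D : Gd M)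

/-- The defining formula of the subgroup. -/
def Hf (A : M) : Prop := ∃ n, n ∈ (omega : M) ∧ ∀ i, i ∈ (omega : M) → n ⊆ i → ∃ m, m ∈ (omega : M) ∧
  ∀ j, j ∈ (omega : M) → m ⊆ j → ∀ x, opair (opair i j) x ∈ D.pr → x ∉ A

instance hf_dfn {ι : Type} (t : (ι → M) → M) [DFun t] : Dfn (fun v => D.Hf (t v)) := by
  refine Dfn.comp1 (P := fun B : M => D.Hf B) ?_ t
  unfold Hf
  infer_instance

/-- The subgroup. -/
noncomputable def HM : M := sep (pow (omega : M)) (fun A => D.Hf A)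

lemma hf_iff {A : Set ℕ} (hA : D.IS A) : D.Hf (D.sv A) ↔ A ∈ Hset := by
  constructor
  · rintro ⟨n, hn, h⟩
    obtain ⟨n, rfl⟩ := (D.mem_om n).mp hn
    refine ⟨n, fun i hi => ?_⟩
    obtain ⟨m, hm, h1⟩ := h (D.nv i) (D.nv_mem i) (D.nv_sub.mpr hi)
    obtain ⟨m, rfl⟩ := (D.mem_om m).mp hm
    refine ⟨m, fun j hj hcon => ?_⟩
    exact h1 (D.nv j) (D.nv_mem j) (D.nv_sub.mpr hj) (D.nv (Nat.pair i j)) ((D.mem_pr i j _).mpr rfl)
      ((D.mem_sv A hA _).mpr hcon)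
  · rintro ⟨n, h⟩
    refine ⟨D.nv n, D.nv_mem n, fun i hi hni => ?_⟩
    obtain ⟨i, rfl⟩ := (D.mem_om i).mp hi
    obtain ⟨m, hm⟩ := h i (D.nv_sub.mp hni)
    refine ⟨D.nv m, D.nv_mem m, fun j hj hmj x hx => ?_⟩
    obtain ⟨j, rfl⟩ := (D.mem_om j).mp hj
    obtain rfl := (D.mem_pr i j x).mp hx
    rw [D.mem_sv A hA]
    exact hm j (D.nv_sub.mp hmj)

lemma sv_mem_HM {A : Set ℕ} (hA : D.IS A) : D.sv A ∈ D.HM ↔ A ∈ Hset := by
  show D.sv A ∈ sep (pow (omega : M)) (fun A => D.Hf A) ↔ _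
  rw [mem_sep, mem_pow', D.hf_iff hA]
  exact ⟨fun h => h.2, fun h => ⟨D.sv_sub A hA, h⟩⟩

lemma HM_sub {a : M} (ha : a ∈ D.HM) : a ⊆ (omega : M) := by
  have h1 : a ∈ sep (pow (omega : M)) (fun A => D.Hf A) := ha
  rw [mem_sep, mem_pow'] at h1
  exact h1.1

lemma mem_HM {a : M} : a ∈ D.HM ↔ ∃ A, D.IS A ∧ a = D.sv A ∧ A ∈ Hset := by
  constructor
  · intro ha
    obtain ⟨A, hA, rfl⟩ := D.sub a (D.HM_sub ha)
    exact ⟨A, hA, rfl, (D.sv_mem_HM hA).mp ha⟩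
  · rintro ⟨A, hA, rfl, h⟩
    exact (D.sv_mem_HM hA).mpr h

lemma isSubgroup : IsSubgroup (Model.E : M → M → Prop) omega D.HM := by
  refine ⟨fun A hA => D.HM_sub hA, fun e he => ?_, fun a b d ha hb hd => ?_⟩
  · have hsub : e ⊆ (omega : M) := fun x hx => (he x hx).elim
    obtain ⟨A, hA, rfl, h⟩ := D.sub' hsub
    refine D.mem_HM.mpr ⟨A, hA, rfl, ?_⟩
    have : A = ∅ := by
      ext n
      rw [← h]
      exact ⟨fun h' => (he _ h').elim, fun h' => h'.elim⟩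
    rw [this]; exact hset_empty
  · obtain ⟨A, hA, rfl, h1⟩ := D.mem_HM.mp ha
    obtain ⟨B, hB, rfl, h2⟩ := D.mem_HM.mp hb
    have hsub : d ⊆ (omega : M) := by
      intro x hx
      rcases (hd x).mp hx with h | h
      · exact D.sv_sub A hA x h.1
      · exact D.sv_sub B hB x h.1
    obtain ⟨C, hC, rfl, h⟩ := D.sub' hsub
    refine D.mem_HM.mpr ⟨C, hC, rfl, ?_⟩
    have : C = {n | (n ∈ A ∧ n ∉ B) ∨ (n ∈ B ∧ n ∉ A)} := by
      ext n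
      rw [← h]
      refine (hd (D.nv n)).trans ?_
      show (D.nv n ∈ D.sv A ∧ ¬ D.nv n ∈ D.sv B) ∨ (D.nv n ∈ D.sv B ∧ ¬ D.nv n ∈ D.sv A) ↔ _
      rw [D.mem_sv A hA, D.mem_sv B hB]
      rfl
    rw [this]
    exact hset_symm h1 h2

/-- Generation of the subgroup. -/
theorem isGeneratedBy {X : M} (hX : ∀ a, a ∈ X → a ∈ D.HM)
    (hgen : ∀ A, D.IS A → A ∈ Hset → ∃ B C, D.IS B ∧ D.IS C ∧ D.sv B ∈ X ∧ D.sv C ∈ X ∧
      A = {n | (n ∈ B ∧ n ∉ C) ∨ (n ∈ C ∧ n ∉ B)}) :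
    IsGeneratedBy (Model.E : M → M → Prop) omega X D.HM := by
  refine ⟨D.isSubgroup, hX, fun K hK hXK a ha => ?_⟩
  obtain ⟨A, hA, rfl, h1⟩ := D.mem_HM.mp ha
  obtain ⟨B, C, hB, hC, h2, h3, h4⟩ := hgen A hA h1
  refine hK.2.2 (D.sv B) (D.sv C) (D.sv A) (hXK _ h2) (hXK _ h3) (fun x => ?_)
  have key : ∀ n, D.nv n ∈ D.sv A ↔ (D.nv n ∈ D.sv B ∧ D.nv n ∉ D.sv C) ∨ (D.nv n ∈ D.sv C ∧ D.nv n ∉ D.sv B) := by
    intro n
    rw [D.mem_sv A hA, D.mem_sv B hB, D.mem_sv C hC, h4]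
    rfl
  show x ∈ D.sv A ↔ (x ∈ D.sv B ∧ ¬ x ∈ D.sv C) ∨ (x ∈ D.sv C ∧ ¬ x ∈ D.sv B)
  constructor
  · intro hx
    obtain ⟨n, rfl⟩ := (D.mem_om x).mp (D.sv_sub A hA x hx)
    exact (key n).mp hx
  · intro hx
    have hx' : x ∈ (omega : M) := by
      rcases hx with h | h
      · exact D.sv_sub B hB x h.1
      · exact D.sv_sub C hC x h.1
    obtain ⟨n, rfl⟩ := (D.mem_om x).mp hx'
    exact (key n).mpr hx

end Gd

end Pool.Agent.H55.Hz
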