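import Pool.Agent.H55.Sig.Hz3

set_option autoImplicit false
set_option linter.all false

/-!
# The subgroup is a Borel set and not σ-compact in the model
-/

namespace Pool.Agent.H55.Hz

open Pool.Agent.H55.SC Pool.Agent.H55.ZFU Pool.Agent.H55.HZ

universe u

section borel
variable {M : Type u} [Model M] [Pure M]

/-- The set of all subsets of `ω` satisfying `φ` belongs to `S`. -/
def BS (S : M) (φ : M → Prop) : Prop := ∃ B, B ∈ S ∧ ∀ A, A ∈ B ↔ A ⊆ (omega : M) ∧ φ A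

variable {S : M}

lemma bs_congr {φ ψ : M → Prop} (h : BS S φ) (hh : ∀ A, A ⊆ (omega : M) → (φ A ↔ ψ A)) : BS S ψ := by
  obtain ⟨B, hB, h1⟩ := h
  exact ⟨B, hB, fun A => (h1 A).trans (and_congr_right (fun hA => hh A hA))⟩

lemma bs_not (hS : IsSigmaAlgebra (Model.E : M → M → Prop) omega S) {φ : M → Prop} (h : BS S φ) :
    BS S (fun A => ¬ φ A) := by
  obtain ⟨B, hB, h1⟩ := h
  have h2 : ∀ A, A ∈ sep (pow (omega : M)) (fun A => A ∉ B) ↔ A ⊆ (omega : M) ∧ ¬ A ∈ B := by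
    intro A
    rw [mem_sep, mem_pow']
  refine ⟨sep (pow (omega : M)) (fun A => A ∉ B), hS.2.1 B _ hB h2, fun A => ?_⟩
  rw [h2, h1]
  constructor
  · rintro ⟨h3, h4⟩
    exact ⟨h3, fun h5 => h4 ⟨h3, h5⟩⟩
  · rintro ⟨h3, h4⟩
    exact ⟨h3, fun h5 => h4 h5.2⟩

lemma bs_ex (hS : IsSigmaAlgebra (Model.E : M → M → Prop) omega S) (φ : M → M → Prop) [hφ : Dfn2 φ]
    (h : ∀ n, n ∈ (omega : M) → BS S (φ n)) : BS S (fun A => ∃ n, n ∈ (omega : M) ∧ φ n A) := by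
  have iφ : ∀ {ι : Type} (t s : (ι → M) → M) [DFun t] [DFun s], Dfn (fun v => φ (t v) (s v)) :=
    fun t s _ _ => Dfn.comp2 hφ t s
  have i1 : ∀ n, Dfn1 (fun A => φ n A) := fun n => iφ (fun _ => n) (fun v => v 0)
  have i2 : Fn1 (fun n => sep (pow (omega : M)) (fun A => φ n A)) := by
    have := iφ (fun v : Option (Fin 1) → M => v (some 0)) (fun v => v none)
    infer_instance
  have i3 : Dfn1 (fun A => ∃ n, n ∈ (omega : M) ∧ φ n A) := by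
    have := iφ (fun v : Option (Fin 1) → M => v none) (fun v => v (some 0))
    infer_instance
  have hm : ∀ n A, A ∈ sep (pow (omega : M)) (fun A => φ n A) ↔ A ⊆ (omega : M) ∧ φ n A := by
    intro n A
    have := i1 n
    rw [mem_sep, mem_pow']
  have hm3 : ∀ A, A ∈ sep (pow (omega : M)) (fun A => ∃ n, n ∈ (omega : M) ∧ φ n A) ↔
      A ⊆ (omega : M) ∧ ∃ n, n ∈ (omega : M) ∧ φ n A := by
    intro A
    rw [mem_sep, mem_pow']
  let u : M := lam (omega : M) (fun n => sep (pow (omega : M)) (fun A => φ n A))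
  have hu : ∀ n x, n ∈ (omega : M) → (SC.Rel Model.E u n x ↔ x = sep (pow (omega : M)) (fun A => φ n A)) := by
    intro n x hn
    rw [rel_iff]
    show opair n x ∈ lam _ _ ↔ _
    rw [mem_lam]
    constructor
    · rintro ⟨n', _, h1⟩
      rw [opair_inj] at h1
      rw [h1.1, h1.2]
    · rintro rfl
      exact ⟨n, hn, rfl⟩
  have hcl := hS.2.2 u (fun n hn => ⟨_, (hu n _ hn).mpr rfl, fun y hy => (hu n y hn).mp hy⟩) (fun n B hn hB => by
    obtain ⟨C, hC, h1⟩ := h n hn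
    have h2 : B = C := by
      rw [(hu n B hn).mp hB]
      refine ext (fun A => ?_)
      rw [hm]; exact (h1 A).symm
    rw [h2]; exact hC)
  refine ⟨sep (pow (omega : M)) (fun A => ∃ n, n ∈ (omega : M) ∧ φ n A), hcl _ (fun A => ?_), hm3⟩
  refine (hm3 A).trans ?_
  constructor
  · rintro ⟨h1, n, hn, h2⟩
    exact ⟨n, _, hn, (hu n _ hn).mpr rfl, (hm n A).mpr ⟨h1, h2⟩⟩
  · rintro ⟨n, B, hn, h1, h2⟩
    rw [(hu n B hn).mp h1] at h2
    obtain ⟨h3, h4⟩ := (hm n A).mp h2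
    exact ⟨h3, n, hn, h4⟩

lemma bs_all (hS : IsSigmaAlgebra (Model.E : M → M → Prop) omega S) (φ : M → M → Prop) [hφ : Dfn2 φ]
    (h : ∀ n, n ∈ (omega : M) → BS S (φ n)) : BS S (fun A => ∀ n, n ∈ (omega : M) → φ n A) := by
  have h1 := bs_not hS (bs_ex hS (fun n A => ¬ φ n A) (fun n hn => bs_not hS (h n hn)))
  refine bs_congr h1 (fun A _ => ?_)
  push Not
  exact Iff.rfl

lemma bs_open (hO : ∀ O : M, IsOpenSet (Model.E : M → M → Prop) omega O → O ∈ S) (φ : M → Prop) [Dfn1 φ]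
    (h : ∀ A, A ⊆ (omega : M) → φ A → ∃ n, n ∈ (omega : M) ∧ ∀ B, B ⊆ (omega : M) → (∀ x, x ∈ n → (x ∈ A ↔ x ∈ B)) → φ B) :
    BS S φ := by
  have hm : ∀ A, A ∈ sep (pow (omega : M)) φ ↔ A ⊆ (omega : M) ∧ φ A := by
    intro A
    rw [mem_sep, mem_pow']
  refine ⟨sep (pow (omega : M)) φ, hO _ ⟨fun A hA => ((hm A).mp hA).1, fun A hA => ?_⟩, hm⟩
  obtain ⟨h1, h2⟩ := (hm A).mp hA
  obtain ⟨n, hn, h3⟩ := h A h1 h2
  exact ⟨n, hn, fun B hB hAB => (hm B).mpr ⟨hB, h3 B hB hAB⟩⟩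

lemma bs_guard (hO : ∀ O : M, IsOpenSet (Model.E : M → M → Prop) omega O → O ∈ S) {p : Prop} {φ : M → Prop}
    (h : BS S φ) : BS S (fun A => p → φ A) := by
  by_cases hp : p
  · exact bs_congr h (fun A _ => ⟨fun h' _ => h', fun h' => h' hp⟩)
  · have h1 : BS S (fun _ : M => True) := bs_open hO _ (fun A _ _ => ⟨∅, empty_mem_omega, fun _ _ _ => trivial⟩)
    exact bs_congr h1 (fun A _ => ⟨fun _ h' => (hp h').elim, fun _ => trivial⟩)

end borel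

namespace Gd
variable {M : Type u} [Model M] [Pure M] (D : Gd M)

theorem isBorel : IsBorel (Model.E : M → M → Prop) omega D.HM := by
  intro S hS hO
  -- the formula
  have b1 : ∀ i j, i ∈ (omega : M) → j ∈ (omega : M) → BS S (fun A => ∀ x, opair (opair i j) x ∈ D.pr → x ∉ A) := by
    intro i j hi hj
    obtain ⟨i, rfl⟩ := (D.mem_om i).mp hi
    obtain ⟨j, rfl⟩ := (D.mem_om j).mp hj
    refine bs_open hO _ (fun A hA h => ⟨D.nv (Nat.pair i j + 1), D.nv_mem _, fun B hB hAB x hx => ?_⟩)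
    have h1 := h x hx
    obtain rfl := (D.mem_pr i j x).mp hx
    intro h2
    exact h1 ((hAB _ ((D.lt _ _).mpr (Nat.lt_succ_self _))).mpr h2)
  have b2 : ∀ i m, i ∈ (omega : M) → m ∈ (omega : M) →
      BS S (fun A => ∀ j, j ∈ (omega : M) → m ⊆ j → ∀ x, opair (opair i j) x ∈ D.pr → x ∉ A) := fun i m hi hm =>
    bs_all hS (fun j A => m ⊆ j → ∀ x, opair (opair i j) x ∈ D.pr → x ∉ A) (fun j hj => bs_guard hO (b1 i j hi hj))
  have b3 : ∀ i, i ∈ (omega : M) → BS S (fun A => ∃ m, m ∈ (omega : M) ∧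
      ∀ j, j ∈ (omega : M) → m ⊆ j → ∀ x, opair (opair i j) x ∈ D.pr → x ∉ A) := fun i hi =>
    bs_ex hS (fun m A => ∀ j, j ∈ (omega : M) → m ⊆ j → ∀ x, opair (opair i j) x ∈ D.pr → x ∉ A) (fun m hm => b2 i m hi hm)
  have b4 : ∀ n, n ∈ (omega : M) → BS S (fun A => ∀ i, i ∈ (omega : M) → n ⊆ i → ∃ m, m ∈ (omega : M) ∧
      ∀ j, j ∈ (omega : M) → m ⊆ j → ∀ x, opair (opair i j) x ∈ D.pr → x ∉ A) := fun n hn =>
    bs_all hS (fun i A => n ⊆ i → ∃ m, m ∈ (omega : M) ∧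
      ∀ j, j ∈ (omega : M) → m ⊆ j → ∀ x, opair (opair i j) x ∈ D.pr → x ∉ A) (fun i hi => bs_guard hO (b3 i hi))
  have b5 : BS S (fun A => D.Hf A) := bs_ex hS (fun n A => ∀ i, i ∈ (omega : M) → n ⊆ i → ∃ m, m ∈ (omega : M) ∧
      ∀ j, j ∈ (omega : M) → m ⊆ j → ∀ x, opair (opair i j) x ∈ D.pr → x ∉ A) (fun n hn => b4 n hn)
  obtain ⟨B, hB, h1⟩ := b5
  have : D.HM = B := by
    refine ext (fun A => ?_)
    rw [h1]
    show A ∈ sep (pow (omega : M)) (fun A => D.Hf A) ↔ _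
    rw [mem_sep, mem_pow']
  rw [this]; exact hB

instance : IsSet (D.HM) := by unfold HM; infer_instance

/-- The subgroup is not σ-compact. -/
theorem not_sigmaCompact (hP : D.IS Pos) (hN : D.IS Neg)
    (hT : ∀ T, D.IS T → ∃ A, D.IS A ∧ ¬ (A ∈ Hset ↔ ∃ n, ∀ k, ∃ t, Nat.pair n t ∈ T ∧ t.unpair.1 = k ∧ Mat t A)) :
    ¬ IsSigmaCompact (Model.E : M → M → Prop) omega D.HM := by
  rintro ⟨u, hu, hcl, hun⟩
  obtain ⟨T, hTI, hT1⟩ := D.trace (fun n t => ∃ K, opair n K ∈ u ∧ ∃ A, A ∈ K ∧ A ⊆ (omega : M) ∧ D.Mt t A)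
  obtain ⟨A, hA, hcon⟩ := hT T hTI
  apply hcon
  rw [← D.sv_mem_HM hA]
  have hun' := hun (D.sv A)
  refine hun'.trans ?_
  constructor
  · rintro ⟨n, K, hn, hK, hAK⟩
    obtain ⟨n, rfl⟩ := (D.mem_om n).mp hn
    refine ⟨n, fun k => ?_⟩
    obtain ⟨t, ht, hm⟩ := exists_string A k
    refine ⟨t, (hT1 n t).mp ⟨K, rel_iff.mp hK, D.sv A, hAK, D.sv_sub A hA, (D.mt_iff hP hN hA t).mpr hm⟩, ht, hm⟩
  · rintro ⟨n, h⟩
    obtain ⟨K, hK, hKu⟩ := hu (D.nv n) (D.nv_mem n)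
    refine ⟨D.nv n, K, D.nv_mem n, hK, ?_⟩
    refine (hcl (D.nv n) K (D.nv_mem n) hK).2 (D.sv A) (D.sv_sub A hA) (fun k hk => ?_)
    obtain ⟨k, rfl⟩ := (D.mem_om k).mp hk
    obtain ⟨t, ht, htk, hm⟩ := h k
    obtain ⟨K', hK', B, hB, hBo, hBt⟩ := (hT1 n t).mpr ht
    have e : K' = K := hKu K' (rel_iff.mpr hK')
    subst e
    obtain ⟨B, hBI, rfl⟩ := D.sub B hBo
    refine ⟨D.sv B, hB, fun x hx => ?_⟩
    obtain ⟨j, hj, rfl⟩ := D.mem_nv.mp hx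
    have h3 := (D.mt_iff hP hN hBI t).mp hBt
    show D.nv j ∈ D.sv A ↔ D.nv j ∈ D.sv B
    rw [D.mem_sv A hA, D.mem_sv B hBI]
    rw [htk.symm] at hj
    exact (hm j hj).trans (h3 j hj).symm

end Gd

end Pool.Agent.H55.Hz
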