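import Pool.Agent.H55.Sig.Hz4
import Pool.Agent.H55.Seq

set_option autoImplicit false
set_option linter.all false

/-!
# The Hurewicz property in the model
-/

namespace Pool.Agent.H55.Hz

open Pool.Agent.H55.SC Pool.Agent.H55.ZFU Pool.Agent.H55.HZ

universe u

namespace Gd
variable {M : Type u} [Model M] [Pure M] (D : Gd M)

/-- The member `O` of the family with the number `n` contains all sets with the initial part `t`. -/
def Zf (u n t O : M) : Prop := ∃ V, opair n V ∈ u ∧ O ∈ V ∧ ∀ B, B ⊆ (omega : M) → D.Mt t B → B ∈ O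

instance zf_dfn {ι : Type} (a b c d : (ι → M) → M) [DFun a] [DFun b] [DFun c] [DFun d] :
    Dfn (fun v => D.Zf (a v) (b v) (c v) (d v)) := by
  refine Dfn.comp4 (P := fun a b c d : M => D.Zf a b c d) ?_ a b c d
  unfold Zf
  infer_instance

lemma rel_lam {a : M} {F : M → M} [hF : Fn1 F] {n x : M} (hn : n ∈ a) :
    SC.Rel Model.E (lam a F) n x ↔ x = F n := by
  rw [rel_iff, mem_lam]
  constructor
  · rintro ⟨n', _, h1⟩
    rw [opair_inj] at h1
    rw [h1.1, h1.2]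
  · rintro rfl
    exact ⟨n, hn, rfl⟩

theorem isHurewicz [Choice M] (hP : D.IS Pos) (hN : D.IS Neg) {X : M} (hX : ∀ a, a ∈ X → a ⊆ (omega : M))
    (hkey : ∀ P, D.IS P → (∃ A, D.IS A ∧ D.sv A ∈ X ∧ ∃ n, ¬ ∃ t, Nat.pair n t ∈ P ∧ Mat t A) ∨
      ∃ L, D.IS L ∧ (∀ n, ∃ l, ∀ t, Nat.pair n t ∈ L → t < l) ∧
        ∀ A, D.IS A → D.sv A ∈ X → ∃ m, ∀ n, m ≤ n → ∃ t, Nat.pair n t ∈ P ∧ Nat.pair n t ∈ L ∧ Mat t A) :
    IsHurewicz (Model.E : M → M → Prop) omega X := by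
  refine ⟨fun A hA => hX A hA, fun u hu => ?_⟩
  obtain ⟨hus, hu'⟩ := hu
  obtain ⟨P, hPI, hP1⟩ := D.trace (fun n t => ∃ O, D.Zf u n t O)
  have hZ : ∀ n t O, n ∈ (omega : M) → D.Zf u n t O → O ∈ pow (pow (omega : M)) := by
    rintro n t O hn ⟨V, hV, hO, _⟩
    rw [mem_pow']
    intro A hA
    rw [mem_pow']
    exact ((hu' n V hn (rel_iff.mpr hV)).1 O hO).1 A hA
  rcases hkey P hPI with ⟨A, hA, hAX, n, hn⟩ | ⟨L, hLI, hL1, hL2⟩
  · exfalso
    apply hn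
    obtain ⟨V, hV, _⟩ := hus (D.nv n) (D.nv_mem n)
    obtain ⟨O, hO, hAO⟩ := (hu' _ V (D.nv_mem n) hV).2 (D.sv A) hAX
    obtain ⟨_, hop⟩ := (hu' _ V (D.nv_mem n) hV).1 O hO
    obtain ⟨k, hk, h1⟩ := hop (D.sv A) hAO
    obtain ⟨k, rfl⟩ := (D.mem_om k).mp hk
    obtain ⟨t, ht, hm⟩ := exists_string A k
    refine ⟨t, (hP1 n t).mp ⟨O, V, rel_iff.mp hV, hO, fun B hB hBt => ?_⟩, hm⟩
    obtain ⟨B, hBI, rfl⟩ := D.sub B hB
    have h2 := (D.mt_iff hP hN hBI t).mp hBt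
    refine h1 (D.sv B) (D.sv_sub B hBI) (fun x hx => ?_)
    obtain ⟨j, hj, rfl⟩ := D.mem_nv.mp hx
    show D.nv j ∈ D.sv A ↔ D.nv j ∈ D.sv B
    rw [D.mem_sv A hA, D.mem_sv B hBI]
    rw [← ht] at hj
    exact (hm j hj).trans (h2 j hj).symm
  · obtain ⟨θ, f, hθ, _, _, _, hf⟩ := wellorder (pow (pow (omega : M)))
    have hpick : ∀ n t, n ∈ (omega : M) → (∃ O, D.Zf u n t O) → D.Zf u n t (pick θ f (fun O => D.Zf u n t O)) := by
      rintro n t hn ⟨O, hO⟩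
      refine pick_spec hθ (fun O => D.Zf u n t O) ?_
      obtain ⟨i, hi, h1⟩ := hf O (hZ n t O hn hO)
      exact ⟨i, hi, by rw [h1]; exact hO⟩
    have i1 : ∀ n : M, Fn1 (fun t => pick θ f (fun O => D.Zf u n t O)) := fun n => inferInstance
    have i2 : Fn1 (fun n => img (sep (omega : M) (fun t => (∃ O, D.Zf u n t O) ∧
      ∃ x, opair (opair n t) x ∈ D.pr ∧ x ∈ D.sv L)) (fun t => pick θ f (fun O => D.Zf u n t O))) := inferInstance
    have hmF : ∀ n O, O ∈ img (sep (omega : M) (fun t => (∃ O, D.Zf u n t O) ∧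
      ∃ x, opair (opair n t) x ∈ D.pr ∧ x ∈ D.sv L)) (fun t => pick θ f (fun O => D.Zf u n t O)) ↔
      ∃ t, (t ∈ (omega : M) ∧ (∃ O, D.Zf u n t O) ∧ ∃ x, opair (opair n t) x ∈ D.pr ∧ x ∈ D.sv L) ∧
        O = pick θ f (fun O => D.Zf u n t O) := by
      intro n O
      rw [mem_img]
      refine exists_congr (fun t => and_congr_left (fun _ => ?_))
      rw [mem_sep]
    refine ⟨lam (omega : M) (fun n => img (sep (omega : M) (fun t => (∃ O, D.Zf u n t O) ∧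
      ∃ x, opair (opair n t) x ∈ D.pr ∧ x ∈ D.sv L)) (fun t => pick θ f (fun O => D.Zf u n t O))),
      fun n hn => ⟨_, (rel_lam hn).mpr rfl, fun y hy => (rel_lam hn).mp hy⟩, ?_, ?_⟩
    · intro n V F hn hV hF
      obtain rfl := (rel_lam hn).mp hF
      obtain ⟨n, rfl⟩ := (D.mem_om n).mp hn
      constructor
      · intro O hO
        obtain ⟨t, ⟨ht, hO', _⟩, rfl⟩ := (hmF _ _).mp hO
        obtain ⟨V', hV', h1, _⟩ := hpick _ t hn hO'
        obtain ⟨W, _, hW⟩ := hus (D.nv n) hn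
        have e : V' = V := (hW V' (rel_iff.mpr hV')).trans (hW V hV).symm
        rw [← e]; exact h1
      · obtain ⟨l, hl⟩ := hL1 n
        have := i1 (D.nv n)
        refine ⟨D.nv l, lam (omega : M) (fun t => pick θ f (fun O => D.Zf u (D.nv n) t O)), D.nv_mem l, ?_, ?_⟩
        · intro x y z hx hy hz
          have hx' : x ∈ (omega : M) := omega_trans _ (D.nv_mem l) x hx
          rw [rel_lam hx'] at hy hz
          rw [hy, hz]
        · intro O hO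
          obtain ⟨t, ⟨ht, hO', x, hx, hxL⟩, rfl⟩ := (hmF _ _).mp hO
          refine ⟨t, ?_, (rel_lam ht).mpr rfl⟩
          obtain ⟨t, rfl⟩ := (D.mem_om t).mp ht
          obtain rfl := (D.mem_pr n t x).mp hx
          exact (D.lt _ _).mpr (hl t ((D.mem_sv L hLI _).mp hxL))
    · intro a ha
      obtain ⟨A, hA, rfl⟩ := D.sub a (hX a ha)
      obtain ⟨m, hm⟩ := hL2 A hA ha
      refine ⟨D.nv m, D.nv_mem m, fun n F hn hmn hF => ?_⟩
      obtain rfl := (rel_lam hn).mp hF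
      obtain ⟨n, rfl⟩ := (D.mem_om n).mp hn
      have hmn' : m ≤ n := by
        rcases hmn with h | h
        · exact ((D.lt m n).mp h).le
        · exact (D.nv_inj h).le
      obtain ⟨t, ht1, ht2, ht3⟩ := hm n hmn'
      have h1 := (hP1 n t).mpr ht1
      refine ⟨_, (hmF _ _).mpr ⟨D.nv t, ⟨D.nv_mem t, h1, D.nv (Nat.pair n t), (D.mem_pr n t _).mpr rfl,
        (D.mem_sv L hLI _).mpr ht2⟩, rfl⟩, ?_⟩
      obtain ⟨V, _, _, h2⟩ := hpick _ _ hn h1
      exact h2 (D.sv A) (D.sv_sub A hA) ((D.mt_iff hP hN hA t).mpr ht3)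

end Gd

end Pool.Agent.H55.Hz
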