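import Pool.Agent.H55.Sig.Hz6

set_option autoImplicit false
set_option linter.all false

/-!
# The model for the tower forcing
-/

namespace Pool.Agent.H55.Hz

open Pool.Agent.H55.SC Pool.Agent.H55.ZFU Pool.Agent.H55.HZ Pool.Agent.H55.Lav Pool.Agent.H55.Sig

/-- The set `A` refutes that the families `P n` cover the points given by `q`. -/
def W1 (b : Bool) (P : Set ℕ) (q : QH) (A : Set ℕ) : Prop := A ∈ AS b q ∧ ∃ n, ¬ ∃ t, Nat.pair n t ∈ P ∧ Mat t A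

/-- The set `L` gives finite subfamilies for all stronger conditions. -/
def W2 (b : Bool) (P : Set ℕ) (q : QH) (L : Set ℕ) : Prop := (∀ n, ∃ l, ∀ t, Nat.pair n t ∈ L → t < l) ∧
  ∀ r ≤ q, ∀ A ∈ AS b r, ∃ m, ∀ n, m ≤ n → ∃ t, Nat.pair n t ∈ P ∧ Nat.pair n t ∈ L ∧ Mat t A

/-- The dense set. -/
def Dk (b : Bool) (P : Set ℕ) : Set QH := {q | (∃ A, W1 b P q A) ∨ ∃ L, W2 b P q L}

lemma dk_dense (b : Bool) (P : Set ℕ) (p : QH) : ∃ q ∈ Dk b P, q ≤ p := by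
  rcases key b (fun n => {t | Nat.pair n t ∈ P}) p with ⟨A, hA, n, hn⟩ | ⟨q, hq, L, hL⟩
  · exact ⟨p, Or.inl ⟨A, hA, n, hn⟩, le_rfl⟩
  · refine ⟨q, Or.inr ⟨{x | x.unpair.2 < L x.unpair.1}, ⟨fun n => ⟨L n, fun t ht => ?_⟩, fun r hr A hA => ?_⟩⟩, hq⟩
    · have : (Nat.pair n t).unpair.2 < L (Nat.pair n t).unpair.1 := ht
      simpa using this
    · obtain ⟨m, hm⟩ := hL r hr A hA
      refine ⟨m, fun n hn => ?_⟩
      obtain ⟨t, ht, h1, h2⟩ := hm n hn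
      refine ⟨t, ht, ?_, h2⟩
      show (Nat.pair n t).unpair.2 < L (Nat.pair n t).unpair.1
      simpa using h1

/-- The points of the set `X`. -/
def SX (A : Set ℕ) : Set QH := {q | A ∈ AS true q ∨ A ∈ AS false q}

lemma exists_HD (A : Set ℕ) (hA : A ∈ Hset) : ∃ D : Set QH, (∀ p, ∃ q ∈ D, q ≤ p) ∧ ∀ q ∈ D, A \ zp A q ∈ AS true q := by
  obtain ⟨f, hf⟩ := exists_bound hA
  exact ⟨{q : QH | ∀ i, f i ≤ q.c.M i}, fun p => len_dense f p, fun q hq => hf q hq⟩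

/-- Closure properties of `N` used for the final model. -/
structure HOk (N : Set (Un QH)) : Prop where
  sx : UOk N SX
  pos : InT N Pos
  neg : InT N Neg
  hd : ∀ A : Set ℕ, InT N A → A ∈ Hset → ∃ D : Set QH, InT N D ∧ (∀ p, ∃ q ∈ D, q ≤ p) ∧ ∀ q ∈ D, A \ zp A q ∈ AS true q
  zp : ∀ A : Set ℕ, InT N A → ∀ q : QH, InT N q → InT N (zp A q) ∧ InT N (A \ zp A q)
  ns : ∀ T : Set ℕ, InT N T → ∃ A : Set ℕ, InT N A ∧ ¬ (A ∈ Hset ↔ ∃ n, ∀ k, ∃ t, Nat.pair n t ∈ T ∧ t.unpair.1 = k ∧ Mat t A)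
  dk : ∀ b, ∀ P : Set ℕ, InT N P → InT N (Dk b P)
  w1 : ∀ b, ∀ P : Set ℕ, InT N P → ∀ q : QH, InT N q → (∃ A, W1 b P q A) → ∃ A, W1 b P q A ∧ InT N A
  w2 : ∀ b, ∀ P : Set ℕ, InT N P → ∀ q : QH, InT N q → (∃ L, W2 b P q L) → ∃ L, W2 b P q L ∧ InT N L
  un : ∀ A : Set ℕ, InT N A → ∀ B : Set ℕ, InT N B → InT N (A ∪ B)

lemma hok_club : ∀ᶠ N in club (Un QH), HOk N := by
  have h1 : ∀ᶠ N in club (Un QH), ∀ A : Set ℕ, InT N A → A ∈ Hset →
      ∃ D : Set QH, InT N D ∧ (∀ p, ∃ q ∈ D, q ≤ p) ∧ ∀ q ∈ D, A \ zp A q ∈ AS true q := by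
    refine diagT (fun A => ?_)
    by_cases h : A ∈ Hset
    · obtain ⟨D, h1, h2⟩ := exists_HD A h
      exact (club_inT D).mono (fun N hN _ => ⟨D, hN, h1, h2⟩)
    · exact Filter.Eventually.of_forall (fun N h' => (h h').elim)
  have h2 : ∀ᶠ N in club (Un QH), ∀ A : Set ℕ, InT N A → ∀ q : QH, InT N q → InT N (zp A q) ∧ InT N (A \ zp A q) :=
    diagT (fun A => diagT (fun q => (club_inT _).and (club_inT _)))
  have h3 : ∀ᶠ N in club (Un QH), ∀ T : Set ℕ, InT N T → ∃ A, InT N A ∧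
      ¬ (A ∈ Hset ↔ ∃ n, ∀ k, ∃ t, Nat.pair n t ∈ T ∧ t.unpair.1 = k ∧ Mat t A) := by
    refine diagT (fun T => ?_)
    obtain ⟨A, hA⟩ := not_sigma (fun n => {t | Nat.pair n t ∈ T})
    exact (club_inT A).mono (fun N hN => ⟨A, hN, hA⟩)
  have h4 : ∀ᶠ N in club (Un QH), ∀ b, ∀ P : Set ℕ, InT N P → InT N (Dk b P) := club_all (fun b => diagT (fun P => club_inT _))
  have h5 : ∀ᶠ N in club (Un QH), ∀ b, ∀ P : Set ℕ, InT N P → ∀ q : QH, InT N q → (∃ A, W1 b P q A) →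
      ∃ A, W1 b P q A ∧ InT N A := by
    refine club_all (fun b => diagT (fun P => diagT (fun q => ?_)))
    by_cases h : ∃ A, W1 b P q A
    · obtain ⟨A, h1⟩ := h
      exact (club_inT A).mono (fun N hN _ => ⟨A, h1, hN⟩)
    · exact Filter.Eventually.of_forall (fun N h' => (h h').elim)
  have h6 : ∀ᶠ N in club (Un QH), ∀ b, ∀ P : Set ℕ, InT N P → ∀ q : QH, InT N q → (∃ L, W2 b P q L) →
      ∃ L, W2 b P q L ∧ InT N L := by
    refine club_all (fun b => diagT (fun P => diagT (fun q => ?_)))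
    by_cases h : ∃ A, W2 b P q A
    · obtain ⟨A, h1⟩ := h
      exact (club_inT A).mono (fun N hN _ => ⟨A, h1, hN⟩)
    · exact Filter.Eventually.of_forall (fun N h' => (h h').elim)
  have h7 : ∀ᶠ N in club (Un QH), ∀ A : Set ℕ, InT N A → ∀ B : Set ℕ, InT N B → InT N (A ∪ B) :=
    diagT (fun A => diagT (fun q => club_inT _))
  filter_upwards [uok_club SX, club_inT Pos, club_inT Neg, h1, h2, h3, h4, h5, h6, h7] with N a1 a2 a3 a4 a5 a6 a7 a8 a9 a10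
  exact ⟨a1, a2, a3, a4, a5, a6, a7, a8, a9, a10⟩

theorem main_result : ∃ (M : Type 1) (E : M → M → Prop), Countable M ∧ WellFounded E ∧ CS.ZFC E ∧
    ∃ w, IsOmega E w ∧ ∃ X H, IsHurewicz E w X ∧ IsGeneratedBy E w X H ∧ IsBorel E w H ∧ ¬ IsSigmaCompact E w H := by
  obtain ⟨N, hcount, all, sok, cok, fu, pok, hok, G, gen⟩ := ((club_countable (Ω := Un QH)).and
    ((allOk_club (Q := QH)).and (sok_club.and (cok_club.and (fuOk_club.and (pok_club.and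
      (hok_club.and exists_genF))))))).exists
  have htop := top_mem all.ok gen
  let zok := all.zok
  letI := mdl all.ok all.fok zok gen
  haveI : ZFU.Pure (MM N G) := zPure (zf all.ok all.fok zok gen)
  have hom : ww G zok = (omega : MM N G) := omega_iff.mp (isOmega_ww htop)
  have hch := choice_ax all.ok all.fok all.zok all.aok gen
  haveI : Choice (MM N G) := choice_of hch
  let D : Gd (MM N G) := gd all.ok all.fok zok sok cok fu all.rok pok gen qh_closed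
  let X : MM N G := uv G hok.sx
  have hsv : ∀ A (h : InT N A), D.sv A = sv G cok h := fun A h => svT_eq zok cok h
  have hX : ∀ A (h : InT N A), D.sv A ∈ X ↔ Ht G (SX A) := by
    intro A h
    rw [hsv A h]
    exact sv_mem_uv zok all.ok gen cok hok.sx h
  have hXm : ∀ a, a ∈ X → ∃ A, InT N A ∧ a = D.sv A ∧ Ht G (SX A) := by
    intro a ha
    obtain ⟨A, hA, h1, rfl⟩ := (mem_uv gen cok hok.sx).mp ha
    exact ⟨A, hA, (hsv A hA).symm, h1⟩
  have hXH : ∀ a, a ∈ X → a ∈ D.HM := by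
    intro a ha
    obtain ⟨A, hA, rfl, q, hq, h1⟩ := hXm a ha
    refine D.mem_HM.mpr ⟨A, hA, rfl, ?_⟩
    rcases h1 with h1 | h1
    · exact as_sub_hset h1
    · exact as_sub_hset h1
  refine ⟨MM N G, EE, ?_, InvImage.wf Subtype.val ZFSet.mem_wf, hch, omega, omega_iff.mpr rfl, X, D.HM, ?_, ?_,
    D.isBorel, D.not_sigmaCompact hok.pos hok.neg hok.ns⟩
  · have h1 : {τ : Nm QH | InN N τ}.Countable := hcount.preimage_of_injOn uN_inj.injOn
    have h2 : Countable {τ : Nm QH | InN N τ} := h1.to_subtype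
    refine Function.Surjective.countable (f := fun τ : {τ : Nm QH | InN N τ} => (vl G τ.2 : MM N G)) ?_
    rintro ⟨x, τ, hτ, rfl⟩
    exact ⟨⟨τ, hτ⟩, rfl⟩
  · refine D.isHurewicz hok.pos hok.neg (fun a ha => D.HM_sub (hXH a ha)) (fun P hP => ?_)
    have hP' : InT N P := hP
    obtain ⟨q1, hq1, h1⟩ := gen.gen _ (hok.dk true P hP') (dk_dense true P)
    obtain ⟨q2, hq2, h2⟩ := gen.gen _ (hok.dk false P hP') (dk_dense false P)
    rcases h1 with h1 | h1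
    · left
      obtain ⟨A, ⟨hA1, hA2⟩, hA⟩ := hok.w1 true P hP' q1 (gen.sub q1 hq1) h1
      exact ⟨A, hA, (hX A hA).mpr ⟨q1, hq1, Or.inl hA1⟩, hA2⟩
    rcases h2 with h2 | h2
    · left
      obtain ⟨A, ⟨hA1, hA2⟩, hA⟩ := hok.w1 false P hP' q2 (gen.sub q2 hq2) h2
      exact ⟨A, hA, (hX A hA).mpr ⟨q2, hq2, Or.inr hA1⟩, hA2⟩
    right
    obtain ⟨L1, ⟨hL1, hL1'⟩, hL1N⟩ := hok.w2 true P hP' q1 (gen.sub q1 hq1) h1
    obtain ⟨L2, ⟨hL2, hL2'⟩, hL2N⟩ := hok.w2 false P hP' q2 (gen.sub q2 hq2) h2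
    refine ⟨L1 ∪ L2, hok.un L1 hL1N L2 hL2N, fun n => ?_, fun A hA hAX => ?_⟩
    · obtain ⟨l1, h3⟩ := hL1 n
      obtain ⟨l2, h4⟩ := hL2 n
      refine ⟨max l1 l2, fun t ht => ?_⟩
      rcases ht with ht | ht
      · exact lt_of_lt_of_le (h3 t ht) (le_max_left _ _)
      · exact lt_of_lt_of_le (h4 t ht) (le_max_right _ _)
    · obtain ⟨r, hr, h3⟩ := (hX A hA).mp hAX
      rcases h3 with h3 | h3
      · obtain ⟨s, hs, hs1, hs2⟩ := gen.dir r hr q1 hq1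
        obtain ⟨m, hm⟩ := hL1' s hs2 A (as_mono hs1 h3)
        refine ⟨m, fun n hn => ?_⟩
        obtain ⟨t, h4, h5, h6⟩ := hm n hn
        exact ⟨t, h4, Or.inl h5, h6⟩
      · obtain ⟨s, hs, hs1, hs2⟩ := gen.dir r hr q2 hq2
        obtain ⟨m, hm⟩ := hL2' s hs2 A (as_mono hs1 h3)
        refine ⟨m, fun n hn => ?_⟩
        obtain ⟨t, h4, h5, h6⟩ := hm n hn
        exact ⟨t, h4, Or.inr h5, h6⟩
  · refine D.isGeneratedBy hXH (fun A hA hAH => ?_)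
    obtain ⟨Dd, hDd, hd, h1⟩ := hok.hd A hA hAH
    obtain ⟨q, hq, h2⟩ := gen.gen Dd hDd hd
    obtain ⟨h3, h4⟩ := hok.zp A hA q (gen.sub q hq)
    refine ⟨A \ zp A q, zp A q, h4, h3, (hX _ h4).mpr ⟨q, hq, Or.inl (h1 q h2)⟩,
      (hX _ h3).mpr ⟨q, hq, Or.inr (zp_mem A q)⟩, ?_⟩
    ext n
    constructor
    · intro hn
      by_cases h5 : n ∈ zp A q
      · exact Or.inr ⟨h5, fun h6 => h6.2 h5⟩
      · exact Or.inl ⟨⟨hn, h5⟩, h5⟩
    · rintro (h5 | h5)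
      · exact h5.1.1
      · exact h5.1.1

end Pool.Agent.H55.Hz
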