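import Pool.Agent.H55.Sig.Sig1

set_option autoImplicit false
set_option linter.all false

/-!
# Forcing which adds no reals: functions from `ω` to `ω`, names of families of sets of natural numbers
-/

namespace Pool.Agent.H55.Sig

open FirstOrder FirstOrder.Language Pool.Agent.H55.SC Pool.Agent.H55.ZFU Pool.Agent.H55.Lav Pool.Agent.H55.TK

variable {Q : Type} [Preorder Q] [OrderTop Q]

/-- The names of the pairs of natural numbers. -/
def opk (Q : Type) [Preorder Q] [OrderTop Q] (t : ℕ) : Nm Q := opN (ck Q t.unpair.1) (ck Q t.unpair.2)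

/-- The function coded by a set of pairs. -/
noncomputable def fnOf (A : Set ℕ) (n : ℕ) : ℕ := sInf {m | Nat.pair n m ∈ A}

/-- Closure properties of `N` used for functions. -/
structure FuOk (N : Set (Un Q)) : Prop where
  eok : EOk N (opk Q)
  fn : ∀ A : Set ℕ, InT N A → InT N (fnOf A)

lemma fuOk_club : ∀ᶠ N in club (Un Q), FuOk N := by
  have h1 : ∀ᶠ N in club (Un Q), ∀ A : Set ℕ, InT N A → InT N (fnOf A) := diagT (fun S => club_inT _)
  filter_upwards [eok_club (opk Q), h1] with N h1 h2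
  exact ⟨h1, h2⟩

section
variable {N : Set (Un Q)} {G : Set Q} (ok : NOk N) (fok : FOk N) (zok : ZOk N) (gen : GenF N G)

include ok fok zok gen in
lemma pair_eq {τ σ : Nm Q} (hτ : InN N τ) (hσ : InN N σ) {p : MM N G} :
    IsPair (EE (N := N) (G := G)) p (vl G hτ) (vl G hσ) ↔ p = vl G (inN_op zok hτ hσ) := by
  have h := op_pair ok zok gen hτ hσ
  constructor
  · intro hp
    exact mm_ext (fun z => (hp z).trans (h z).symm)
  · rintro rfl; exact h

include ok fok zok gen in
lemma rel_iff_op {τ σ : Nm Q} (hτ : InN N τ) (hσ : InN N σ) {r : MM N G} :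
    Rel (EE (N := N) (G := G)) r (vl G hτ) (vl G hσ) ↔ EE (vl G (inN_op zok hτ hσ)) r := by
  constructor
  · rintro ⟨p, hp, hpp⟩
    rwa [← (pair_eq ok fok zok gen hτ hσ).mp hpp]
  · intro h
    exact ⟨_, h, op_pair ok zok gen hτ hσ⟩

include ok fok zok gen in
/-- The trace of a relation of the model on the natural numbers belongs to the ground model. -/
lemma rel_ground (hσ : SClosed Q) (sok : SOk N) (fu : FuOk N) (r : MM N G) :
    ∃ A : Set ℕ, InT N A ∧ ∀ n m, Rel (EE (N := N) (G := G)) r (nv G zok n) (nv G zok m) ↔ Nat.pair n m ∈ A := by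
  obtain ⟨A, hA, h⟩ := ground hσ ok sok gen fu.eok r
  refine ⟨A, hA, fun n m => ?_⟩
  rw [← h, show (nv G zok n : MM N G) = vl G (zok.nat n) from rfl, show (nv G zok m : MM N G) = vl G (zok.nat m) from rfl,
    rel_iff_op ok fok zok gen]
  have e : opN (ck Q n) (ck Q m) = opk Q (Nat.pair n m) := by rw [opk, Nat.unpair_pair]
  have : (vl G (inN_op zok (zok.nat n) (zok.nat m)) : MM N G) = vl G (fu.eok.nm (Nat.pair n m)) := by
    apply Subtype.ext
    show val N G _ = val N G _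
    rw [e]
  rw [this]

/-- The natural number `n` of the model as an element of `ω`. -/
noncomputable def nw (htop : (⊤ : Q) ∈ G) (n : ℕ) : El (EE (N := N) (G := G)) (ww G zok) :=
  ⟨nv G zok n, (mem_ww htop).mpr ⟨n, rfl⟩⟩

lemma exists_nw (htop : (⊤ : Q) ∈ G) (x : El (EE (N := N) (G := G)) (ww G zok)) : ∃ n, x = nw zok htop n := by
  obtain ⟨n, h⟩ := (mem_ww htop).mp x.2
  exact ⟨n, Subtype.ext h⟩

lemma nw_inj (htop : (⊤ : Q) ∈ G) {m n : ℕ} (h : (nw zok htop m : El (EE (N := N) (G := G)) (ww G zok)) = nw zok htop n) :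
    m = n := nv_inj (zok := zok) htop (congrArg Subtype.val h)

include ok fok gen in
/-- Functions of the model from `ω` to `ω` belong to the ground model. -/
lemma fun_ground (hσ : SClosed Q) (sok : SOk N) (fu : FuOk N)
    (f : El (EE (N := N) (G := G)) (ww G zok) → El (EE (N := N) (G := G)) (ww G zok)) (hf : IntFun EE f) :
    ∃ F : ℕ → ℕ, InT N F ∧ ∀ n, f (nw zok (top_mem ok gen) n) = nw zok (top_mem ok gen) (F n) := by
  have htop := top_mem ok gen
  obtain ⟨r, hr⟩ := hf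
  obtain ⟨A, hA, h⟩ := rel_ground ok fok zok gen hσ sok fu r
  refine ⟨fnOf A, fu.fn A hA, fun n => ?_⟩
  obtain ⟨m, hm⟩ := exists_nw zok htop (f (nw zok htop n))
  have h1 : ∀ k, Nat.pair n k ∈ A ↔ k = m := by
    intro k
    rw [← h]
    have h0 : f (nw zok htop n) = nw zok htop k ↔ Rel (EE (N := N) (G := G)) r (nv G zok n) (nv G zok k) :=
      hr (nw zok htop n) (nw zok htop k)
    rw [← h0, hm]
    constructor
    · intro h'; exact (nw_inj zok htop h').symm
    · rintro rfl; rfl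
  have h2 : {k | Nat.pair n k ∈ A} = {m} := by
    ext k; rw [Set.mem_singleton_iff]; exact h1 k
  rw [hm, fnOf, h2, csInf_singleton]

end

/-! ### Families of sets of natural numbers -/

/-- The name of the family of all ground model sets `A` such that the generic filter meets `S A`. -/
def ufN (S : Set ℕ → Set Q) : Nm Q := .mk (Σ A : Set ℕ, {q : Q // q ∈ S A}) (fun y => ckS Q y.1) (fun y => y.2.1)

/-- Closure properties of `N` used for the name of a family. -/
structure UOk (N : Set (Un Q)) (S : Set ℕ → Set Q) : Prop where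
  nm : InN N (ufN S)
  uw : ∀ ρ, InN N ρ → ∀ q : Q, InT N q → (∃ A, ckS Q A = ρ ∧ q ∈ S A) → ∃ A, ckS Q A = ρ ∧ q ∈ S A ∧ InT N A
  app : ∀ A : Set ℕ, InT N A → InT N (S A)

lemma uok_club (S : Set ℕ → Set Q) : ∀ᶠ N in club (Un Q), UOk N S := by
  have h1 : ∀ᶠ N in club (Un Q), ∀ ρ, InN N ρ → ∀ q : Q, InT N q → (∃ A, ckS Q A = ρ ∧ q ∈ S A) →
      ∃ A, ckS Q A = ρ ∧ q ∈ S A ∧ InT N A := by
    refine diagN (fun ρ => diagT (fun q => ?_))
    by_cases h : ∃ A, ckS Q A = ρ ∧ q ∈ S A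
    · obtain ⟨A, h1, h2⟩ := h
      exact (club_inT A).mono (fun N hN _ => ⟨A, h1, h2, hN⟩)
    · exact Filter.Eventually.of_forall (fun N h' => (h h').elim)
  have h2 : ∀ᶠ N in club (Un Q), ∀ A : Set ℕ, InT N A → InT N (S A) := diagT (fun A => club_inT _)
  filter_upwards [club_inN (ufN S), h1, h2] with N h0 h1 h2
  exact ⟨h0, h1, h2⟩

section
variable {N : Set (Un Q)} {G : Set Q}

/-- The value of a family. -/
noncomputable def uv (G : Set Q) {S : Set ℕ → Set Q} (uok : UOk N S) : MM N G := vl G uok.nm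

lemma mem_uv (gen : GenF N G) (cok : COk N) {S : Set ℕ → Set Q} (uok : UOk N S) {z : MM N G} :
    EE z (uv G uok) ↔ ∃ A, ∃ h : InT N A, Ht G (S A) ∧ z = sv G cok h := by
  constructor
  · intro hz
    obtain ⟨⟨A, q, hq⟩, h1, h2, h3⟩ := mem_val.mp hz
    obtain ⟨B, hB1, hB2, hB3⟩ := uok.uw _ h1 q (gen.sub q h2) ⟨A, rfl, hq⟩
    refine ⟨B, hB3, ⟨q, h2, hB2⟩, Subtype.ext ?_⟩
    rw [← h3]
    show val N G (ckS Q A) = val N G (ckS Q B)
    rw [hB1]
    rfl
  · rintro ⟨A, h, ⟨q, hq, hqS⟩, rfl⟩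
    exact mem_val.mpr ⟨⟨A, q, hqS⟩, cok.cs A h, hq, rfl⟩

lemma sv_mem_uv (zok : ZOk N) (ok : NOk N) (gen : GenF N G) (cok : COk N) {S : Set ℕ → Set Q} (uok : UOk N S)
    {A : Set ℕ} (h : InT N A) : EE (sv G cok h) (uv G uok) ↔ Ht G (S A) := by
  rw [mem_uv gen cok uok]
  constructor
  · rintro ⟨B, hB, h1, h2⟩
    rw [sv_inj (top_mem ok gen) cok zok h2]; exact h1
  · intro h1; exact ⟨A, h, h1, rfl⟩

end

end Pool.Agent.H55.Sig
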