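import Pool.Agent.H55.Sig.Sig2
import Pool.Agent.H55.SelUlt

set_option autoImplicit false
set_option linter.all false

/-!
# The forcing adding a sequence of selective ultrafilters
-/

namespace Pool.Agent.H55.Sig

open FirstOrder FirstOrder.Language Pool.Agent.H55.SC Pool.Agent.H55.ZFU Pool.Agent.H55.Lav Pool.Agent.H55.TK

/-- Conditions: sequences of infinite sets of natural numbers. -/
def QU : Type := ℕ → {A : Set ℕ // A.Infinite}

/-- The order: inclusion modulo finite in every coordinate. -/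
instance : Preorder QU where
  le q p := ∀ n, ((q n).1 \ (p n).1).Finite
  le_refl p n := by simp
  le_trans r q p h1 h2 n := by
    refine ((h1 n).union (h2 n)).subset ?_
    intro x hx
    by_cases h : x ∈ (q n).1
    · exact Or.inr ⟨h, hx.2⟩
    · exact Or.inl ⟨hx.1, h⟩

instance : OrderTop QU where
  top := fun _ => ⟨Set.univ, Set.infinite_univ⟩
  le_top q n := by
    show ((q n).1 \ Set.univ).Finite
    simp

lemma qu_le {q p : QU} : q ≤ p ↔ ∀ n, ((q n).1 \ (p n).1).Finite := Iff.rfl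

lemma qu_anti {p : ℕ → QU} (h : ∀ n, p (n + 1) ≤ p n) {m n : ℕ} (hmn : m ≤ n) : p n ≤ p m := by
  induction n, hmn using Nat.le_induction with
  | base => exact le_rfl
  | succ n _ ih => exact (h n).trans ih

theorem qu_closed : SClosed QU := by
  intro p h
  obtain ⟨q, hq1, hq2⟩ := SelUlt.exists_lower (ι := ℕ) (fun i n => (p i n).1) (fun i n => (p i n).2) (fun i j => by
    rcases le_total i j with h1 | h1
    · exact Or.inr (qu_anti h h1)
    · exact Or.inl (qu_anti h h1))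
  exact ⟨fun n => ⟨q n, hq1 n⟩, fun i n => hq2 i n⟩

/-- The section of a subset of `ω × ω` (coded as a set of natural numbers). -/
def sec (A : Set ℕ) (n : ℕ) : Set ℕ := {k | Nat.pair n k ∈ A}

/-- The conditions putting `A` into the `n`-th ultrafilter. -/
def Su (n : ℕ) (A : Set ℕ) : Set QU := {q | ((q n).1 \ A).Finite}

/-- The conditions putting `A` into the Fubini limit. -/
def SL (A : Set ℕ) : Set QU := {q | ((q 0).1 \ {n | q ∈ Su (n + 1) (sec A n)}).Finite}

lemma su_mono {n : ℕ} {A : Set ℕ} {p q : QU} (h : p ∈ Su n A) (hq : q ≤ p) : q ∈ Su n A := by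
  refine ((hq n).union h).subset ?_
  intro x hx
  by_cases h : x ∈ (p n).1
  · exact Or.inr ⟨h, hx.2⟩
  · exact Or.inl ⟨hx.1, h⟩

lemma su_sub {n : ℕ} {A B : Set ℕ} {p : QU} (h : p ∈ Su n A) (hAB : A ⊆ B) : p ∈ Su n B :=
  h.subset (fun x hx => ⟨hx.1, fun h' => hx.2 (hAB h')⟩)

lemma su_inter {n : ℕ} {A B : Set ℕ} {p : QU} (h : p ∈ Su n A) (h' : p ∈ Su n B) : p ∈ Su n (A ∩ B) := by
  refine (h.union h').subset ?_
  rintro x ⟨h1, h2⟩
  by_cases h3 : x ∈ A
  · exact Or.inr ⟨h1, fun h4 => h2 ⟨h3, h4⟩⟩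
  · exact Or.inl ⟨h1, h3⟩

lemma su_empty {n : ℕ} {p : QU} (h : p ∈ Su n ∅) : False := by
  have : ((p n).1 \ ∅).Finite := h
  rw [Set.diff_empty] at this
  exact (p n).2 this

lemma su_inf {n : ℕ} {A : Set ℕ} {p : QU} (h : p ∈ Su n A) : A.Infinite := by
  intro hA
  refine (p n).2 ((h.union hA).subset ?_)
  intro x hx
  by_cases h3 : x ∈ A
  · exact Or.inr h3
  · exact Or.inl ⟨hx, h3⟩

lemma sl_iff {A : Set ℕ} {q : QU} : q ∈ SL A ↔ q ∈ Su 0 {n | q ∈ Su (n + 1) (sec A n)} := Iff.rfl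

lemma sl_mono {A : Set ℕ} {p q : QU} (h : p ∈ SL A) (hq : q ≤ p) : q ∈ SL A := by
  rw [sl_iff] at h ⊢
  exact su_sub (su_mono h hq) (fun n hn => su_mono hn hq)

lemma sl_sub {A B : Set ℕ} {p : QU} (h : p ∈ SL A) (hAB : A ⊆ B) : p ∈ SL B :=
  su_sub h (fun n hn => su_sub hn (fun k hk => hAB hk))

lemma sl_inter {A B : Set ℕ} {p : QU} (h : p ∈ SL A) (h' : p ∈ SL B) : p ∈ SL (A ∩ B) :=
  su_sub (su_inter h h') (fun n hn => su_inter hn.1 hn.2)

lemma sl_empty {p : QU} (h : p ∈ SL ∅) : False := by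
  refine su_empty (n := 0) (p := p) (su_sub h ?_)
  intro n hn
  exact (su_empty (su_sub hn (fun k hk => hk))).elim

open Classical in
/-- Shrink a condition in the coordinate `n`. -/
noncomputable def upd (q : QU) (n : ℕ) (B : Set ℕ) : QU :=
  fun m => if h : m = n ∧ (B ∩ (q n).1).Infinite then ⟨B ∩ (q n).1, h.2⟩ else q m

lemma upd_le (q : QU) (n : ℕ) (B : Set ℕ) : upd q n B ≤ q := by
  intro m
  unfold upd
  split_ifs with h
  · have : B ∩ (q n).1 ⊆ (q m).1 := by rw [h.1]; exact Set.inter_subset_right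
    rw [Set.diff_eq_empty.mpr this]; exact Set.finite_empty
  · simp

lemma upd_eq {q : QU} {n : ℕ} {B : Set ℕ} (h : (B ∩ (q n).1).Infinite) : (upd q n B n).1 = B ∩ (q n).1 := by
  unfold upd
  rw [dif_pos ⟨rfl, h⟩]

/-- Each coordinate can be shrunk independently. -/
lemma su_dense (n : ℕ) (A : Set ℕ) (p : QU) : ∃ q ≤ p, q ∈ Su n A ∨ q ∈ Su n Aᶜ := by
  by_cases h : (A ∩ (p n).1).Infinite
  · refine ⟨upd p n A, upd_le _ _ _, Or.inl ?_⟩
    show ((upd p n A n).1 \ A).Finite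
    rw [upd_eq h, Set.diff_eq_empty.mpr Set.inter_subset_left]
    exact Set.finite_empty
  · refine ⟨p, le_rfl, Or.inr ?_⟩
    show ((p n).1 \ Aᶜ).Finite
    refine (Set.not_infinite.mp h).subset ?_
    rintro x ⟨h1, h2⟩
    exact ⟨not_not.mp h2, h1⟩

/-- The Fubini limit is decided. -/
lemma sl_dense (A : Set ℕ) (p : QU) : ∃ q ≤ p, q ∈ SL A ∨ q ∈ SL Aᶜ := by
  classical
  obtain ⟨q, hq, hqp⟩ := dAll_dense qu_closed (fun n => Su (n + 1) (sec A n) ∪ Su (n + 1) (sec A n)ᶜ)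
    (fun n p q h h' => by
      rcases h with h | h
      · exact Or.inl (su_mono h h')
      · exact Or.inr (su_mono h h')) p
  have h1 : ∀ n, q ∈ Su (n + 1) (sec A n) ∨ q ∈ Su (n + 1) (sec A n)ᶜ := by
    intro n
    rcases hq n with h | h
    · exact h
    · obtain ⟨r, hr, h'⟩ := su_dense (n + 1) (sec A n) q
      exact (h r hr h').elim
  obtain ⟨r, hr, h2⟩ := su_dense 0 {n | q ∈ Su (n + 1) (sec A n)} q
  refine ⟨r, hr.trans hqp, ?_⟩
  rcases h2 with h2 | h2
  · exact Or.inl (su_sub h2 (fun n hn => su_mono hn hr))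
  · refine Or.inr (su_sub h2 (fun n hn => ?_))
    rcases h1 n with h3 | h3
    · exact (hn h3).elim
    · exact su_mono h3 hr

lemma su_not_both {n : ℕ} {A : Set ℕ} {p : QU} (h : p ∈ Su n A) (h' : p ∈ Su n Aᶜ) : False :=
  su_empty (by simpa using su_inter h h')

lemma sl_not_both {A : Set ℕ} {p : QU} (h : p ∈ SL A) (h' : p ∈ SL Aᶜ) : False :=
  sl_empty (by simpa using sl_inter h h')

lemma sl_singleton {x : ℕ} {p : QU} (h : p ∈ SL {x}) : False := by
  refine su_empty (n := 0) (p := p) (su_sub h ?_)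
  intro n hn
  refine (su_inf hn ((Set.finite_singleton x.unpair.2).subset ?_)).elim
  intro k hk
  have h1 : Nat.pair n k = x := hk
  rw [← h1]; simp

/-- Selectivity of the coordinates. -/
def Dsel (n : ℕ) (f : ℕ → ℕ) : Set QU := {q | (∃ c, ∀ x ∈ (q n).1, f x = c) ∨ Set.InjOn f (q n).1}

lemma dsel_dense (n : ℕ) (f : ℕ → ℕ) (p : QU) : ∃ q ∈ Dsel n f, q ≤ p := by
  obtain ⟨B, hB, hBi, h⟩ := SelUlt.exists_const_or_inj (p n).1 (p n).2 f
  have h1 : (B ∩ (p n).1).Infinite := by rwa [Set.inter_eq_left.mpr hB]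
  refine ⟨upd p n B, ?_, upd_le _ _ _⟩
  show (∃ c, ∀ x ∈ (upd p n B n).1, f x = c) ∨ Set.InjOn f (upd p n B n).1
  rw [upd_eq h1, Set.inter_eq_left.mpr hB]
  exact h

/-- The set of all pairs `(n, k)` with `n` in the first set and `k` in the set with the number `n + 1`. -/
def AQ (q : QU) : Set ℕ := {x | x.unpair.1 ∈ (q 0).1 ∧ x.unpair.2 ∈ (q (x.unpair.1 + 1)).1}

lemma mem_sl_AQ (q : QU) : q ∈ SL (AQ q) := by
  have : (q 0).1 \ {n | q ∈ Su (n + 1) (sec (AQ q) n)} = ∅ := by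
    rw [Set.diff_eq_empty]
    intro n hn
    show ((q (n + 1)).1 \ sec (AQ q) n).Finite
    rw [Set.diff_eq_empty.mpr]
    · exact Set.finite_empty
    · intro k hk
      show Nat.pair n k ∈ AQ q
      simpa [AQ] using ⟨hn, hk⟩
  show ((q 0).1 \ {n | q ∈ Su (n + 1) (sec (AQ q) n)}).Finite
  rw [this]; exact Set.finite_empty

/-- The q-point property of the Fubini limit. -/
def Dq (f : ℕ → ℕ) : Set QU := {q | Set.InjOn f (AQ q)}

lemma dq_dense (f : ℕ → ℕ) (hf : ∀ c, {x | f x = c}.Finite) (p : QU) : ∃ q ∈ Dq f, q ≤ p := by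
  classical
  -- the set of forbidden values is finite
  have step : ∀ (t : ℕ) (l : Finset ℕ), ∃ k ∈ (p (t.unpair.1 + 1)).1, ∀ y ∈ l,
      f (Nat.pair t.unpair.1 k) ≠ f y ∧ k ≠ y.unpair.2 := by
    intro t l
    have h1 : {k | ∃ y ∈ l, f (Nat.pair t.unpair.1 k) = f y ∨ k = y.unpair.2}.Finite := by
      have : {k | ∃ y ∈ l, f (Nat.pair t.unpair.1 k) = f y ∨ k = y.unpair.2} ⊆
          ⋃ y ∈ l, ((fun x : ℕ => x.unpair.2) '' {x | f x = f y} ∪ {y.unpair.2}) := by
        rintro k ⟨y, hy, h | h⟩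
        · refine Set.mem_biUnion hy (Or.inl ⟨Nat.pair t.unpair.1 k, h, by simp⟩)
        · exact Set.mem_biUnion hy (Or.inr h)
      refine Set.Finite.subset (l.finite_toSet.biUnion (fun y _ => ?_)) this
      exact ((hf (f y)).image _).union (Set.finite_singleton _)
    obtain ⟨k, hk, hk'⟩ := (p (t.unpair.1 + 1)).2.exists_notMem_finite h1
    refine ⟨k, hk, fun y hy => ⟨fun h => hk' ⟨y, hy, Or.inl h⟩, fun h => hk' ⟨y, hy, Or.inr h⟩⟩⟩
  choose g hg1 hg2 using step
  -- the sequence of the chosen points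
  let F : ℕ → Finset ℕ := fun t => Nat.rec ∅ (fun t l => insert (Nat.pair t.unpair.1 (g t l)) l) t
  have hF : ∀ t, F (t + 1) = insert (Nat.pair t.unpair.1 (g t (F t))) (F t) := fun t => rfl
  let z : ℕ → ℕ := fun t => Nat.pair t.unpair.1 (g t (F t))
  have hmono : ∀ s t, s < t → z s ∈ F t := by
    intro s t hst
    induction t with
    | zero => omega
    | succ t ih =>
      rw [hF]
      rcases Nat.lt_succ_iff_lt_or_eq.mp hst with h | h
      · exact Finset.mem_insert_of_mem (ih h)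
      · rw [h]; exact Finset.mem_insert_self _ _
  have hne : ∀ s t, s < t → f (z t) ≠ f (z s) ∧ (z t).unpair.2 ≠ (z s).unpair.2 := by
    intro s t hst
    have h := hg2 t (F t) (z s) (hmono s t hst)
    refine ⟨h.1, ?_⟩
    show (Nat.pair t.unpair.1 (g t (F t))).unpair.2 ≠ _
    rw [Nat.unpair_pair]; exact h.2
  have hinj2 : Function.Injective (fun t => (z t).unpair.2) := by
    intro s t h
    rcases lt_trichotomy s t with h1 | h1 | h1
    · exact ((hne s t h1).2 h.symm).elim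
    · exact h1
    · exact ((hne t s h1).2 h).elim
  have hz1 : ∀ t, (z t).unpair.1 = t.unpair.1 := fun t => by
    show (Nat.pair t.unpair.1 (g t (F t))).unpair.1 = _
    rw [Nat.unpair_pair]
  have hz2 : ∀ t, (z t).unpair.2 ∈ (p (t.unpair.1 + 1)).1 := fun t => by
    show (Nat.pair t.unpair.1 (g t (F t))).unpair.2 ∈ _
    rw [Nat.unpair_pair]; exact hg1 t (F t)
  let B : ℕ → Set ℕ := fun n => (fun t => (z t).unpair.2) '' {t | t.unpair.1 = n}
  have hB : ∀ n, (B n).Infinite := by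
    intro n
    refine Set.Infinite.image hinj2.injOn ?_
    refine Set.infinite_of_injective_forall_mem (f := fun k => Nat.pair n k) (fun a b h => ?_) (fun k => ?_)
    · simpa using h
    · show (Nat.pair n k).unpair.1 = n
      simp
  have hBp : ∀ n, B n ⊆ (p (n + 1)).1 := by
    rintro n _ ⟨t, ht, rfl⟩
    have := hz2 t
    rw [show t.unpair.1 = n from ht] at this
    exact this
  let q : QU := fun m => match m with
    | 0 => p 0
    | n + 1 => ⟨B n, hB n⟩
  refine ⟨q, ?_, ?_⟩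
  · -- injectivity
    have hmem : ∀ x ∈ AQ q, ∃ t, x = z t := by
      rintro x ⟨_, t, ht, ht2⟩
      refine ⟨t, ?_⟩
      have e1 : (z t).unpair.1 = x.unpair.1 := (hz1 t).trans ht
      rw [← Nat.pair_unpair x, ← e1, ← ht2, Nat.pair_unpair]
    intro x hx y hy hxy
    obtain ⟨s, rfl⟩ := hmem x hx
    obtain ⟨t, rfl⟩ := hmem y hy
    rcases lt_trichotomy s t with h1 | h1 | h1
    · exact ((hne s t h1).1 hxy.symm).elim
    · rw [h1]
    · exact ((hne t s h1).1 hxy).elim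
  · intro m
    cases m with
    | zero => simp [q]
    | succ n =>
      show (B n \ (p (n + 1)).1).Finite
      rw [Set.diff_eq_empty.mpr (hBp n)]; exact Set.finite_empty

/-- The first coordinate is neither constant nor injective on a set in the Fubini limit. -/
lemma sl_fst {A : Set ℕ} {q : QU} (h : q ∈ SL A) :
    (∃ x ∈ A, ∃ y ∈ A, x.unpair.1 ≠ y.unpair.1) ∧ ∃ x ∈ A, ∃ y ∈ A, x ≠ y ∧ x.unpair.1 = y.unpair.1 := by
  have h1 : {n | q ∈ Su (n + 1) (sec A n)}.Infinite := su_inf (sl_iff.mp h)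
  obtain ⟨n, hn⟩ := h1.nonempty
  obtain ⟨m, hm, hmn⟩ := h1.exists_gt n
  have h2 : (sec A n).Infinite := su_inf hn
  have h3 : (sec A m).Infinite := su_inf hm
  obtain ⟨k, hk⟩ := h2.nonempty
  obtain ⟨l, hl, hkl⟩ := h2.exists_gt k
  obtain ⟨j, hj⟩ := h3.nonempty
  refine ⟨⟨Nat.pair n k, hk, Nat.pair m j, hj, by simpa using hmn.ne⟩, Nat.pair n k, hk, Nat.pair n l, hl, ?_, by simp⟩
  intro h'
  simp at h'
  omega

end Pool.Agent.H55.Sig
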