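import Pool.Agent.H55.Sig.Sig3

set_option autoImplicit false
set_option linter.all false

/-!
# The model with a non-selective q-point which is a Fubini limit of p-points
-/

namespace Pool.Agent.H55.Sig

open FirstOrder FirstOrder.Language Pool.Agent.H55.SC Pool.Agent.H55.ZFU Pool.Agent.H55.Lav Pool.Agent.H55.TK
  Pool.Agent.H55.CS


/-- Closure properties of `N` used for the final model. -/
structure TOk (N : Set (Un QU)) : Prop where
  su : ∀ n, UOk N (Su n)
  sl : UOk N SL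
  seq : FnOk N (fun n : ℕ => opN (ck QU n) (ufN (Su (n + 1))))
  pr : FnOk N (fun t : ℕ => opN (opk QU t) (ck QU t))
  fst : FnOk N (fun t : ℕ => opN (ck QU t) (ck QU t.unpair.1))
  idn : FnOk N (fun A : Set ℕ => opN (ckS QU A) (ckS QU A))
  sec : ∀ A : Set ℕ, InT N A → InT N (fun n => Su (n + 1) (sec A n)) ∧ InT N Aᶜ ∧ ∀ n, InT N (sec A n)
  sub : ∀ A : Set ℕ, InT N A → ∀ B : Set ℕ, InT N B → InT N (A ∩ B)
  coord : ∀ q : QU, InT N q → ∀ n, InT N (q n).1
  aq : ∀ q : QU, InT N q → InT N (AQ q)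
  dsu : ∀ n, ∀ A : Set ℕ, InT N A → InT N {q | q ∈ Su n A ∨ q ∈ Su n Aᶜ}
  dsl : ∀ A : Set ℕ, InT N A → InT N {q | q ∈ SL A ∨ q ∈ SL Aᶜ}
  dsel : ∀ n, ∀ f : ℕ → ℕ, InT N f → InT N (Dsel n f)
  dq : ∀ f : ℕ → ℕ, InT N f → InT N (Dq f)
  res : ∀ q : QU, InT N q → ∀ B : Set ℕ, InT N B → InT N (upd q 0 B)

lemma tok_club : ∀ᶠ N in club (Un QU), TOk N := by
  have h1 : ∀ᶠ N in club (Un QU), ∀ n, UOk N (Su n) := club_all (fun n => uok_club _)
  have h2 : ∀ᶠ N in club (Un QU), ∀ A : Set ℕ, InT N A → InT N (fun n => Su (n + 1) (sec A n)) ∧ InT N Aᶜ ∧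
      ∀ n, InT N (sec A n) :=
    diagT (fun A => (club_inT _).and ((club_inT _).and (club_all (fun n => club_inT _))))
  have h3 : ∀ᶠ N in club (Un QU), ∀ A : Set ℕ, InT N A → ∀ B : Set ℕ, InT N B → InT N (A ∩ B) :=
    diagT (fun A => diagT (fun B => club_inT _))
  have h4 : ∀ᶠ N in club (Un QU), ∀ q : QU, InT N q → ∀ n, InT N (q n).1 := diagT (fun q => club_all (fun n => club_inT _))
  have h5 : ∀ᶠ N in club (Un QU), ∀ q : QU, InT N q → InT N (AQ q) := diagT (fun q => club_inT _)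
  have h6 : ∀ᶠ N in club (Un QU), ∀ n, ∀ A : Set ℕ, InT N A → InT N {q | q ∈ Su n A ∨ q ∈ Su n Aᶜ} :=
    club_all (fun n => diagT (fun A => club_inT _))
  have h7 : ∀ᶠ N in club (Un QU), ∀ A : Set ℕ, InT N A → InT N {q | q ∈ SL A ∨ q ∈ SL Aᶜ} := diagT (fun A => club_inT _)
  have h8 : ∀ᶠ N in club (Un QU), ∀ n, ∀ f : ℕ → ℕ, InT N f → InT N (Dsel n f) :=
    club_all (fun n => diagT (fun A => club_inT _))
  have h9 : ∀ᶠ N in club (Un QU), ∀ f : ℕ → ℕ, InT N f → InT N (Dq f) := diagT (fun A => club_inT _)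
  have h10 : ∀ᶠ N in club (Un QU), ∀ q : QU, InT N q → ∀ B : Set ℕ, InT N B → InT N (upd q 0 B) :=
    diagT (fun A => diagT (fun B => club_inT _))
  filter_upwards [h1, uok_club SL, fnOk_club (fun n : ℕ => opN (ck QU n) (ufN (Su (n + 1)))),
    fnOk_club (fun t : ℕ => opN (opk QU t) (ck QU t)), fnOk_club (fun t : ℕ => opN (ck QU t) (ck QU t.unpair.1)),
    fnOk_club (fun A : Set ℕ => opN (ckS QU A) (ckS QU A)), h2, h3, h4, h5, h6, h7, h8, h9, h10] with
    N a1 a2 a3 a4 a5 a6 a7 a8 a9 a10 a11 a12 a13 a14 a15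
  exact ⟨a1, a2, a3, a4, a5, a6, a7, a8, a9, a10, a11, a12, a13, a14, a15⟩

section
variable {N : Set (Un QU)} {G : Set QU} (ok : NOk N) (fok : FOk N) (zok : ZOk N) (sok : SOk N) (cok : COk N)
  (fu : FuOk N) (rok : ROk N) (tok : TOk N) (gen : GenF N G)

include gen in
lemma ht_su_mono {n : ℕ} {A B : Set ℕ} (h : Ht G (Su n A)) (hAB : A ⊆ B) : Ht G (Su n B) := by
  obtain ⟨q, hq, h1⟩ := h
  exact ⟨q, hq, su_sub h1 hAB⟩

include gen in
lemma ht_su_inter {n : ℕ} {A B : Set ℕ} (h : Ht G (Su n A)) (h' : Ht G (Su n B)) : Ht G (Su n (A ∩ B)) := by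
  obtain ⟨p, hp, h1⟩ := h
  obtain ⟨q, hq, h2⟩ := h'
  obtain ⟨r, hr, h3, h4⟩ := gen.dir p hp q hq
  exact ⟨r, hr, su_inter (su_mono h1 h3) (su_mono h2 h4)⟩

include gen tok in
lemma ht_su_compl {n : ℕ} {A : Set ℕ} (hA : InT N A) : Ht G (Su n A) ↔ ¬ Ht G (Su n Aᶜ) := by
  constructor
  · rintro ⟨p, hp, h1⟩ ⟨q, hq, h2⟩
    obtain ⟨r, hr, h3, h4⟩ := gen.dir p hp q hq
    exact su_not_both (su_mono h1 h3) (su_mono h2 h4)
  · intro h
    obtain ⟨q, hq, h1⟩ := gen.gen _ (tok.dsu n A hA) (fun p => by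
      obtain ⟨q, h2, h3⟩ := su_dense n A p
      exact ⟨q, h3, h2⟩)
    rcases h1 with h1 | h1
    · exact ⟨q, hq, h1⟩
    · exact (h ⟨q, hq, h1⟩).elim

include gen in
lemma ht_sl_mono {A B : Set ℕ} (h : Ht G (SL A)) (hAB : A ⊆ B) : Ht G (SL B) := by
  obtain ⟨q, hq, h1⟩ := h
  exact ⟨q, hq, sl_sub h1 hAB⟩

include gen in
lemma ht_sl_inter {A B : Set ℕ} (h : Ht G (SL A)) (h' : Ht G (SL B)) : Ht G (SL (A ∩ B)) := by
  obtain ⟨p, hp, h1⟩ := h
  obtain ⟨q, hq, h2⟩ := h'
  obtain ⟨r, hr, h3, h4⟩ := gen.dir p hp q hq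
  exact ⟨r, hr, sl_inter (sl_mono h1 h3) (sl_mono h2 h4)⟩

include gen tok in
lemma ht_sl_compl {A : Set ℕ} (hA : InT N A) : Ht G (SL A) ↔ ¬ Ht G (SL Aᶜ) := by
  constructor
  · rintro ⟨p, hp, h1⟩ ⟨q, hq, h2⟩
    obtain ⟨r, hr, h3, h4⟩ := gen.dir p hp q hq
    exact sl_not_both (sl_mono h1 h3) (sl_mono h2 h4)
  · intro h
    obtain ⟨q, hq, h1⟩ := gen.gen _ (tok.dsl A hA) (fun p => by
      obtain ⟨q, h2, h3⟩ := sl_dense A p
      exact ⟨q, h3, h2⟩)
    rcases h1 with h1 | h1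
    · exact ⟨q, hq, h1⟩
    · exact (h ⟨q, hq, h1⟩).elim

include ok sok cok gen in
/-- A family of sets with the properties of an ultrafilter gives an ultrafilter of the model. -/
lemma isUltra_uv {S : Set ℕ → Set QU} (uok : UOk N S) (hmono : ∀ A B, Ht G (S A) → A ⊆ B → Ht G (S B))
    (hint : ∀ A B, Ht G (S A) → Ht G (S B) → Ht G (S (A ∩ B)))
    (hcompl : ∀ A, InT N A → (Ht G (S A) ↔ ¬ Ht G (S Aᶜ))) (hnp : ∀ x : ℕ, ¬ Ht G (S {x})) :
    IsUltra (EE (N := N) (G := G)) (ww G zok) (uv G uok) := by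
  have htop := top_mem ok gen
  have hsub : ∀ A : MM N G, EE A (uv G uok) → ∀ x, EE x A → EE x (ww G zok) := by
    intro a ha x hx
    obtain ⟨A, hA, _, rfl⟩ := (mem_uv gen cok uok).mp ha
    exact sv_sub htop cok hA x hx
  refine ⟨hsub, ?_, ?_, ?_, ?_⟩
  · intro a b ha hab hb
    obtain ⟨A, hA, h1, rfl⟩ := (mem_uv gen cok uok).mp ha
    obtain ⟨B, hB, rfl⟩ := sub_ground qu_closed ok sok cok gen b hb
    refine (sv_mem_uv zok ok gen cok uok hB).mpr (hmono A B h1 (fun n hn => ?_))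
    exact (nv_mem_sv (zok := zok) htop cok hB).mp (hab _ ((nv_mem_sv (zok := zok) htop cok hA).mpr hn))
  · intro a b c ha hb hc
    obtain ⟨A, hA, h1, rfl⟩ := (mem_uv gen cok uok).mp ha
    obtain ⟨B, hB, h2, rfl⟩ := (mem_uv gen cok uok).mp hb
    obtain ⟨C, hC, rfl⟩ := sub_ground (zok := zok) qu_closed ok sok cok gen c (fun x hx =>
      hsub _ ha x ((hc x).mp hx).1)
    refine (sv_mem_uv zok ok gen cok uok hC).mpr ?_
    have : C = A ∩ B := by
      ext n
      rw [Set.mem_inter_iff, ← nv_mem_sv (zok := zok) htop cok hC, hc, nv_mem_sv htop cok hA, nv_mem_sv htop cok hB]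
    rw [this]
    exact hint A B h1 h2
  · intro a b ha hb
    obtain ⟨A, hA, rfl⟩ := sub_ground (zok := zok) qu_closed ok sok cok gen a ha
    obtain ⟨B, hB, rfl⟩ := sub_ground (zok := zok) qu_closed ok sok cok gen b (fun x hx => ((hb x).mp hx).1)
    rw [sv_mem_uv zok ok gen cok uok hA, sv_mem_uv zok ok gen cok uok hB]
    have : B = Aᶜ := by
      ext n
      rw [Set.mem_compl_iff, ← nv_mem_sv (zok := zok) htop cok hB, hb, nv_mem_sv htop cok hA]
      exact ⟨fun h => h.2, fun h => ⟨(mem_ww htop).mpr ⟨n, rfl⟩, h⟩⟩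
    rw [this]
    exact hcompl A hA
  · intro a n hn ha
    obtain ⟨A, hA, h1, rfl⟩ := (mem_uv gen cok uok).mp ha
    obtain ⟨k, _, rfl⟩ := (mem_sv (zok := zok) htop cok hA).mp ((hn n).mpr rfl)
    have : A = {k} := by
      ext m
      rw [Set.mem_singleton_iff, ← nv_mem_sv (zok := zok) htop cok hA, hn]
      exact ⟨fun h => nv_inj htop h, fun h => by rw [h]⟩
    rw [this] at h1
    exact hnp k h1

include ok sok cok tok gen in
lemma isUltra_su (n : ℕ) : IsUltra (EE (N := N) (G := G)) (ww G zok) (uv G (tok.su n)) :=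
  isUltra_uv ok zok sok cok gen (tok.su n) (fun A B h h' => ht_su_mono gen h h') (fun A B h h' => ht_su_inter gen h h')
    (fun A hA => ht_su_compl tok gen hA) (fun x => by
      rintro ⟨q, _, h⟩
      exact su_inf h (Set.finite_singleton x))

include ok sok cok tok gen in
lemma isUltra_sl : IsUltra (EE (N := N) (G := G)) (ww G zok) (uv G tok.sl) :=
  isUltra_uv ok zok sok cok gen tok.sl (fun A B h h' => ht_sl_mono gen h h') (fun A B h h' => ht_sl_inter gen h h')
    (fun A hA => ht_sl_compl tok gen hA) (fun x => by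
      rintro ⟨q, _, h⟩
      exact sl_singleton h)

/-- A bound for a bounded set of natural numbers of the model. -/
lemma fin_bound (htop : (⊤ : QU) ∈ G) {S : Set ℕ} (hS : S.Finite) : ∃ b : El (EE (N := N) (G := G)) (ww G zok),
    ∀ n ∈ S, EE (nv G zok n) b.1 := by
  obtain ⟨b, hb⟩ := hS.bddAbove
  exact ⟨nw zok htop (b + 1), fun n hn => (nv_lt htop).mpr (Nat.lt_succ_of_le (hb hn))⟩

include ok fok sok cok fu tok gen in
lemma isPPoint_su (n : ℕ) : IsPPoint (EE (N := N) (G := G)) (ww G zok) (uv G (tok.su n)) := by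
  have htop := top_mem ok gen
  refine ⟨isUltra_su ok zok sok cok tok gen n, fun f hf => ?_⟩
  obtain ⟨F, hF, h⟩ := fun_ground ok fok zok gen qu_closed sok fu f hf
  obtain ⟨q, hq, h1⟩ := gen.gen _ (tok.dsel n F hF) (dsel_dense n F)
  have hqN := gen.sub q hq
  have hA := tok.coord q hqN n
  refine ⟨sv G cok hA, (sv_mem_uv zok ok gen cok (tok.su n) hA).mpr ⟨q, hq, ?_⟩, ?_⟩
  · show ((q n).1 \ (q n).1).Finite
    simp
  · rcases h1 with ⟨c, hc⟩ | h1
    · left
      refine ⟨nw zok htop c, fun x hx => ?_⟩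
      obtain ⟨k, rfl⟩ := exists_nw zok htop x
      rw [h, hc k ((nv_mem_sv (zok := zok) htop cok hA).mp hx)]
    · right
      intro c
      obtain ⟨b, hb⟩ := fin_bound (N := N) (G := G) zok htop (S := {k | k ∈ (q n).1 ∧ f (nw zok htop k) = c}) (by
        refine Set.Subsingleton.finite (fun k hk l hl => h1 hk.1 hl.1 ?_)
        have h2 := hk.2.trans hl.2.symm
        rw [h, h] at h2
        exact nw_inj zok htop h2)
      refine ⟨b, fun x hx hxc => ?_⟩
      obtain ⟨k, rfl⟩ := exists_nw zok htop x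
      exact hb k ⟨(nv_mem_sv (zok := zok) htop cok hA).mp hx, hxc⟩

include ok fok sok cok fu tok gen in
lemma isQPoint_sl : IsQPoint (EE (N := N) (G := G)) (ww G zok) (uv G tok.sl) := by
  have htop := top_mem ok gen
  refine ⟨isUltra_sl ok zok sok cok tok gen, fun f hf hfin => ?_⟩
  obtain ⟨F, hF, h⟩ := fun_ground ok fok zok gen qu_closed sok fu f hf
  have hFfin : ∀ c, {x | F x = c}.Finite := by
    intro c
    obtain ⟨b, hb⟩ := hfin (nw zok htop c)
    obtain ⟨m, rfl⟩ := exists_nw zok htop b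
    refine (Set.finite_Iio m).subset (fun k hk => ?_)
    have h1 := hb (nw zok htop k) ((mem_ww htop).mpr ⟨k, rfl⟩) (by rw [h, show F k = c from hk])
    exact (nv_lt (zok := zok) htop).mp h1
  obtain ⟨q, hq, h1⟩ := gen.gen _ (tok.dq F hF) (dq_dense F hFfin)
  have hA := tok.aq q (gen.sub q hq)
  refine ⟨sv G cok hA, (sv_mem_uv zok ok gen cok tok.sl hA).mpr ⟨q, hq, mem_sl_AQ q⟩, fun x y hx hy hxy => ?_⟩
  obtain ⟨k, rfl⟩ := exists_nw zok htop x
  obtain ⟨l, rfl⟩ := exists_nw zok htop y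
  rw [h, h] at hxy
  rw [h1 ((nv_mem_sv (zok := zok) htop cok hA).mp hx) ((nv_mem_sv (zok := zok) htop cok hA).mp hy) (nw_inj zok htop hxy)]

/-- The names `fun t => opN (s t) (t' t)` give functions of the model. -/
lemma rel_rg' {I : Type} {s t : I → Nm QU} (ok : NOk N) (fok : FOk N) (zok : ZOk N) (gen : GenF N G)
    (hs : ∀ i, InT N i → InN N (s i)) (ht : ∀ i, InT N i → InN N (t i))
    (fok' : FnOk N (fun i => opN (s i) (t i))) {x y : MM N G} :
    Rel EE (vl G fok'.rg) x y ↔ ∃ i, ∃ h : InT N i, x = vl G (hs i h) ∧ y = vl G (ht i h) :=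
  rel_rg ok fok zok gen hs ht fok'

include ok fok sok cok fu rok tok gen in
lemma not_selective_sl : ¬ IsSelective (EE (N := N) (G := G)) (ww G zok) (uv G tok.sl) := by
  have htop := top_mem ok gen
  rintro ⟨_, h⟩
  let f : El (EE (N := N) (G := G)) (ww G zok) → El (EE (N := N) (G := G)) (ww G zok) := fun x =>
    nw zok htop (exists_nw zok htop x).choose.unpair.1
  have hf : ∀ n, f (nw zok htop n) = nw zok htop n.unpair.1 := by
    intro n
    have h1 := (exists_nw zok htop (nw zok htop n : El (EE (N := N) (G := G)) (ww G zok))).choose_spec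
    have h2 := nw_inj zok htop h1
    show nw zok htop _ = _
    rw [← h2]
  have hint : IntFun EE f := by
    refine ⟨vl G tok.fst.rg, fun x y => ?_⟩
    obtain ⟨n, rfl⟩ := exists_nw zok htop x
    obtain ⟨m, rfl⟩ := exists_nw zok htop y
    show f (nw zok htop n) = nw zok htop m ↔ _
    rw [hf, rel_rg' ok fok zok gen (fun i _ => zok.nat i) (fun i _ => zok.nat i.unpair.1) tok.fst]
    constructor
    · intro h1
      exact ⟨n, rok.nat n, rfl, (congrArg Subtype.val h1).symm⟩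
    · rintro ⟨i, _, h1, h2⟩
      have e1 : n = i := nv_inj (zok := zok) htop h1
      have e2 : m = i.unpair.1 := nv_inj (zok := zok) htop h2
      rw [e1, e2]
  obtain ⟨a, ha, h1⟩ := h f hint
  obtain ⟨A, hA, ⟨q, hq, h2⟩, rfl⟩ := (mem_uv gen cok tok.sl).mp ha
  obtain ⟨⟨x, hx, y, hy, hxy⟩, u, hu, v, hv, huv, huv'⟩ := sl_fst h2
  rcases h1 with ⟨c, hc⟩ | h1
  · have e1 := hc (nw zok htop x) ((nv_mem_sv (zok := zok) htop cok hA).mpr hx)
    have e2 := hc (nw zok htop y) ((nv_mem_sv (zok := zok) htop cok hA).mpr hy)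
    rw [hf] at e1 e2
    exact hxy (nw_inj zok htop (e1.trans e2.symm))
  · have e1 := h1 (nw zok htop u) (nw zok htop v) ((nv_mem_sv (zok := zok) htop cok hA).mpr hu)
      ((nv_mem_sv (zok := zok) htop cok hA).mpr hv) (by rw [hf, hf, huv'])
    exact huv (nw_inj zok htop e1)

include ok fok zok cok tok gen in
lemma tukey_refl : TukeyLE (EE (N := N) (G := G)) (uv G tok.sl) (uv G tok.sl) := by
  refine ⟨fun A => A, ⟨vl G tok.idn.rg, fun x y => ?_⟩, fun A B h => h, fun C => ⟨C, fun x hx => hx⟩⟩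
  rw [rel_rg' ok fok zok gen (fun A h => cok.cs A h) (fun A h => cok.cs A h) tok.idn]
  obtain ⟨A, hA, _, h1⟩ := (mem_uv gen cok tok.sl).mp x.2
  constructor
  · intro h
    exact ⟨A, hA, h1, (congrArg Subtype.val h).symm.trans h1⟩
  · rintro ⟨B, hB, h2, h3⟩
    exact Subtype.ext (h2.trans h3.symm)

/-- The sequence of ultrafilters. -/
noncomputable def Vseq (x : El (EE (N := N) (G := G)) (ww G zok)) (htop : (⊤ : QU) ∈ G) : MM N G :=
  uv G (tok.su ((exists_nw zok htop x).choose + 1))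

lemma vseq_eq (htop : (⊤ : QU) ∈ G) (n : ℕ) : Vseq zok tok (nw zok htop n : El (EE (N := N) (G := G)) (ww G zok)) htop =
    uv G (tok.su (n + 1)) := by
  have h1 := (exists_nw zok htop (nw zok htop n : El (EE (N := N) (G := G)) (ww G zok))).choose_spec
  have h2 := nw_inj zok htop h1
  unfold Vseq
  have key : ∀ k, k = n → uv G (tok.su (k + 1)) = uv G (tok.su (n + 1)) := by rintro k rfl; rfl
  exact key _ h2.symm

include ok fok gen rok in
lemma intSeq_V : IntSeq (EE (N := N) (G := G)) (w := ww G zok) (fun x => Vseq zok tok x (top_mem ok gen)) := by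
  have htop := top_mem ok gen
  refine ⟨vl G tok.seq.rg, fun x y => ?_⟩
  obtain ⟨n, rfl⟩ := exists_nw zok htop x
  show Vseq zok tok (nw zok htop n) htop = y ↔ Rel EE (vl G tok.seq.rg) (nv G zok n) y
  rw [vseq_eq, rel_rg' ok fok zok gen (fun i _ => zok.nat i) (fun i _ => (tok.su (i + 1)).nm) tok.seq]
  constructor
  · intro h
    exact ⟨n, rok.nat n, rfl, h.symm⟩
  · rintro ⟨i, _, h1, h2⟩
    have e1 : n = i := nv_inj (zok := zok) htop h1
    subst e1
    exact h2.symm

/-- The pairing function of the model. -/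
noncomputable def Pf (htop : (⊤ : QU) ∈ G) (x y : El (EE (N := N) (G := G)) (ww G zok)) :
    El (EE (N := N) (G := G)) (ww G zok) :=
  nw zok htop (Nat.pair (exists_nw zok htop x).choose (exists_nw zok htop y).choose)

lemma pf_eq (htop : (⊤ : QU) ∈ G) (n m : ℕ) :
    Pf zok htop (nw zok htop n : El (EE (N := N) (G := G)) (ww G zok)) (nw zok htop m) = nw zok htop (Nat.pair n m) := by
  have h1 := nw_inj zok htop (exists_nw zok htop (nw zok htop n : El (EE (N := N) (G := G)) (ww G zok))).choose_spec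
  have h2 := nw_inj zok htop (exists_nw zok htop (nw zok htop m : El (EE (N := N) (G := G)) (ww G zok))).choose_spec
  unfold Pf
  rw [← h1, ← h2]

include ok fok gen fu rok tok in
lemma pf_int : IntFun₂ (EE (N := N) (G := G)) (Pf zok (top_mem ok gen)) := by
  have htop := top_mem ok gen
  refine ⟨vl G tok.pr.rg, fun x y z => ?_⟩
  obtain ⟨n, rfl⟩ := exists_nw zok htop x
  obtain ⟨m, rfl⟩ := exists_nw zok htop y
  obtain ⟨k, rfl⟩ := exists_nw zok htop z
  rw [pf_eq]
  have hop : (vl G (inN_op zok (zok.nat n) (zok.nat m)) : MM N G) = vl G (fu.eok.nm (Nat.pair n m)) := by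
    apply Subtype.ext
    show val N G _ = val N G _
    rw [opk, Nat.unpair_pair]
  constructor
  · intro h
    have e : Nat.pair n m = k := nw_inj zok htop h
    refine ⟨vl G (inN_op zok (zok.nat n) (zok.nat m)), op_pair ok zok gen (zok.nat n) (zok.nat m), ?_⟩
    rw [rel_rg' ok fok zok gen (fun i _ => fu.eok.nm i) (fun i _ => zok.nat i) tok.pr]
    refine ⟨k, rok.nat k, ?_, rfl⟩
    rw [hop, ← e]
  · rintro ⟨p, hp, hpr⟩
    have hp' := (pair_eq ok fok zok gen (zok.nat n) (zok.nat m)).mp hp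
    rw [rel_rg' ok fok zok gen (fun i _ => fu.eok.nm i) (fun i _ => zok.nat i) tok.pr] at hpr
    obtain ⟨i, _, h1, h2⟩ := hpr
    have e2 : k = i := nv_inj (zok := zok) htop h2
    subst e2
    -- the pair determines its coordinates
    have h3 : IsPair (EE (N := N) (G := G)) p (nv G zok k.unpair.1) (nv G zok k.unpair.2) := by
      rw [h1]; exact op_pair ok zok gen (zok.nat k.unpair.1) (zok.nat k.unpair.2)
    obtain ⟨e3, e4⟩ := pair_uniq ok fok zok gen hp h3
    have e5 : n = k.unpair.1 := nv_inj (zok := zok) htop e3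
    have e6 : m = k.unpair.2 := nv_inj (zok := zok) htop e4
    rw [e5, e6, Nat.pair_unpair]

include ok fok sok cok gen fu rok in
/-- The Fubini limit. -/
lemma isFubini : IsFubiniLimit (EE (N := N) (G := G)) (w := ww G zok) (uv G (tok.su 0))
    (fun x => Vseq zok tok x (top_mem ok gen)) (uv G tok.sl) := by
  have htop := top_mem ok gen
  refine ⟨(isUltra_sl ok zok sok cok tok gen).sub, Pf zok htop, pf_int ok fok zok fu rok tok gen, fun x => ?_, ?_⟩
  · obtain ⟨k, rfl⟩ := exists_nw zok htop x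
    refine ⟨(nw zok htop k.unpair.1, nw zok htop k.unpair.2), ?_, ?_⟩
    · show Pf zok htop (nw zok htop _) (nw zok htop _) = _
      rw [pf_eq, Nat.pair_unpair]
    · rintro ⟨y, z⟩ h
      obtain ⟨n, rfl⟩ := exists_nw zok htop y
      obtain ⟨m, rfl⟩ := exists_nw zok htop z
      have h' : Pf zok htop (nw zok htop n) (nw zok htop m) = nw zok htop k := h
      rw [pf_eq] at h'
      have e := nw_inj zok htop h'
      rw [← e, Nat.unpair_pair]
  · intro a ha
    obtain ⟨A, hA, rfl⟩ := sub_ground (zok := zok) qu_closed ok sok cok gen a ha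
    rw [sv_mem_uv zok ok gen cok tok.sl hA]
    obtain ⟨hseq, _, hsec⟩ := tok.sec A hA
    -- the set `B`
    obtain ⟨q, hq, hdec⟩ := decide_open qu_closed sok gen hseq (fun n p q h h' => su_mono h h')
    have hB : InT N {n | q ∈ Su (n + 1) (sec A n)} := sok.ev _ hseq q (gen.sub q hq)
    set B := {n | q ∈ Su (n + 1) (sec A n)} with hBdef
    have hmemB : ∀ n, n ∈ B ↔ Ht G (Su (n + 1) (sec A n)) := fun n => (hdec n).1.symm
    -- membership of the sections
    have hC : ∀ n : ℕ, n ∈ B ↔ ∃ C : MM N G, EE C (uv G (tok.su (n + 1))) ∧ (∀ x, EE x C → EE x (ww G zok)) ∧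
        ∀ k : El (EE (N := N) (G := G)) (ww G zok), EE k.1 C ↔ EE (Pf zok htop (nw zok htop n) k).1 (sv G cok hA) := by
      intro n
      rw [hmemB]
      constructor
      · intro h
        refine ⟨sv G cok (hsec n), (sv_mem_uv zok ok gen cok (tok.su (n + 1)) (hsec n)).mpr h, sv_sub htop cok _, fun k => ?_⟩
        obtain ⟨m, rfl⟩ := exists_nw zok htop k
        rw [pf_eq]
        exact (nv_mem_sv (zok := zok) htop cok (hsec n)).trans (nv_mem_sv (zok := zok) htop cok hA).symm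
      · rintro ⟨c, hc, hcw, hck⟩
        obtain ⟨C, hC, h1, rfl⟩ := (mem_uv gen cok (tok.su (n + 1))).mp hc
        have : C = sec A n := by
          ext m
          rw [← nv_mem_sv (zok := zok) htop cok hC]
          have h2 := hck (nw zok htop m)
          rw [pf_eq] at h2
          exact h2.trans (nv_mem_sv (zok := zok) htop cok hA)
        rw [← this]; exact h1
    have hSL : Ht G (SL A) ↔ Ht G (Su 0 B) := by
      constructor
      · rintro ⟨p, hp, h1⟩
        obtain ⟨r, hr, h2, h3⟩ := gen.dir p hp q hq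
        refine ⟨r, hr, su_sub (sl_iff.mp (sl_mono h1 h2)) (fun n hn => ?_)⟩
        exact ((hdec n).2 r h3).mp hn
      · rintro ⟨p, hp, h1⟩
        obtain ⟨r, hr, h2, h3⟩ := gen.dir p hp q hq
        refine ⟨r, hr, sl_iff.mpr (su_sub (su_mono h1 h2) (fun n hn => ?_))⟩
        exact ((hdec n).2 r h3).mpr hn
    rw [hSL]
    constructor
    · intro h
      refine ⟨sv G cok hB, (sv_mem_uv zok ok gen cok (tok.su 0) hB).mpr h, sv_sub htop cok _, fun x => ?_⟩
      obtain ⟨n, rfl⟩ := exists_nw zok htop x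
      show EE (nv G zok n) (sv G cok hB) ↔ _
      rw [nv_mem_sv (zok := zok) htop cok hB]
      beta_reduce
      rw [vseq_eq]
      exact hC n
    · rintro ⟨b, hb, hbw, hbn⟩
      obtain ⟨B', hB', h1, rfl⟩ := (mem_uv gen cok (tok.su 0)).mp hb
      have : B' = B := by
        ext n
        rw [← nv_mem_sv (zok := zok) htop cok hB']
        have h2 := hbn (nw zok htop n)
        beta_reduce at h2
        rw [vseq_eq] at h2
        exact h2.trans (hC n).symm
      rw [← this]; exact h1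

end

theorem main_result : ∃ (M : Type 1) (E : M → M → Prop), Countable M ∧ WellFounded E ∧ ZFC E ∧
    ∃ w, IsOmega E w ∧ ∃ (k : ℕ) (U V : M), IsIterate E w k U ∧ IsQPoint E w V ∧ TukeyLE E V U ∧
      ¬ IsSelective E w V := by
  obtain ⟨N, hcount, all, sok, cok, fu, tok, G, gen⟩ := ((club_countable (Ω := Un QU)).and
    ((allOk_club (Q := QU)).and (sok_club.and (cok_club.and (fuOk_club.and (tok_club.and exists_genF)))))).exists
  have htop := top_mem all.ok gen
  refine ⟨MM N G, EE, ?_, ?_, choice_ax all.ok all.fok all.zok all.aok gen, ww G all.zok, isOmega_ww htop, 2,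
    uv G tok.sl, uv G tok.sl, ?_, isQPoint_sl all.ok all.fok all.zok sok cok fu tok gen,
    tukey_refl all.ok all.fok all.zok cok tok gen, not_selective_sl all.ok all.fok all.zok sok cok fu all.rok tok gen⟩
  · have h1 : {τ : Nm QU | InN N τ}.Countable := hcount.preimage_of_injOn uN_inj.injOn
    have h2 : Countable {τ : Nm QU | InN N τ} := h1.to_subtype
    refine Function.Surjective.countable (f := fun τ : {τ : Nm QU | InN N τ} => (vl G τ.2 : MM N G)) ?_
    rintro ⟨x, τ, hτ, rfl⟩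
    exact ⟨⟨τ, hτ⟩, rfl⟩
  · exact InvImage.wf Subtype.val ZFSet.mem_wf
  · right; right
    refine ⟨uv G (tok.su 0), fun x => Vseq all.zok tok x htop, isPPoint_su all.ok all.fok all.zok sok cok fu tok gen 0,
      intSeq_V all.ok all.fok all.zok all.rok tok gen, fun x => ?_,
      isFubini all.ok all.fok all.zok sok cok fu all.rok tok gen⟩
    left
    exact isPPoint_su all.ok all.fok all.zok sok cok fu tok gen _

end Pool.Agent.H55.Sig
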